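import Pool.Agent.QFJ.Labels

/-!
# [QFJ.Avg] The cocycle with its sign unitaries for a finite window
-/

set_option autoImplicit false

namespace Pool.Agent.QFJ

open Pool.Agent.QFP Pool.Agent.QFI
open scoped Matrix.Norms.L2Operator

universe u v w'

attribute [local instance] matCStar

namespace Setup

variable {𝒜 : Type u} [CStarAlgebra 𝒜] {G : Type v} [Group G] (X : Setup 𝒜 G) {m : ℕ}
  (w : Fin m → G) {n : ℕ}

/-- the averages of the moved part are small -/
theorem avg_small (hn : 0 < n) {τ : 𝒜 →ₗ[ℂ] ℂ} (hτ : TrAlg τ) (k : G) (jg j0 : Fin m) :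
    n2 (mtr (Lb n m) τ) (jmap (Lb n m) (1 - X.e (w jg * k) (w j0 * k)) *
      ((n : ℂ)⁻¹ • ∑ s : Fin n, X.vv w s jg k * X.vv w s j0 k)) ^ 2 ≤ (n : ℝ)⁻¹ := by
  classical
  have hn' : (n : ℂ) ≠ 0 := by exact_mod_cast hn.ne'
  have htr : TrAlg (mtr (Lb n m) τ) := mtr_trAlg hτ
  let f : (Fin m × Fin m → Bool) → Lb n m → ℂ := fun c d =>
    (n : ℂ)⁻¹ * ∑ s, sgn (d (s, rep w c jg)) * sgn (d (s, rep w c j0))
  let Q : (Fin m × Fin m → Bool) → Matrix (Lb n m) (Lb n m) ℂ := fun c =>
    if c (jg, j0) then 0 else Matrix.diagonal (f c)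
  have h1 : jmap (Lb n m) (1 - X.e (w jg * k) (w j0 * k)) *
      ((n : ℂ)⁻¹ • ∑ s : Fin n, X.vv w s jg k * X.vv w s j0 k) =
        Xi (Lb n m) (X.q w k) (X.q_part w k) Q := by
    have h2 : (n : ℂ)⁻¹ • ∑ s : Fin n, X.vv w s jg k * X.vv w s j0 k =
        Xi (Lb n m) (X.q w k) (X.q_part w k) (fun c => Matrix.diagonal (f c)) := by
      have h3 : ∀ s : Fin n, X.vv w s jg k * X.vv w s j0 k =
          Xi (Lb n m) (X.q w k) (X.q_part w k) (F w s jg * F w s j0) := fun s =>
        (map_mul _ _ _).symm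
      rw [Finset.sum_congr rfl fun s _ => h3 s, ← map_sum, ← map_smul]
      congr 1
      funext c
      rw [Pi.smul_apply, Finset.sum_apply]
      have h4 : ∀ s : Fin n, (F w s jg * F w s j0 :
          (Fin m × Fin m → Bool) → Matrix (Lb n m) (Lb n m) ℂ) c = Matrix.diagonal
          fun d : Lb n m => sgn (d (s, rep w c jg)) * sgn (d (s, rep w c j0)) := by
        intro s
        exact Matrix.diagonal_mul_diagonal _ _
      rw [Finset.sum_congr rfl fun s _ => h4 s]
      ext a b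
      rw [Matrix.smul_apply, Matrix.sum_apply]
      simp only [Matrix.diagonal_apply]
      by_cases hab : a = b
      · simp only [if_pos hab]
        rw [smul_eq_mul]
      · simp only [if_neg hab, Finset.sum_const_zero, smul_zero]
    rw [h2, map_sub, map_one, sub_mul, one_mul, X.e_mul_Xi w jg j0, ← map_sub]
    congr 1
    funext c
    show Matrix.diagonal (f c) - (if c (jg, j0) then Matrix.diagonal (f c) else 0) = Q c
    show _ = if c (jg, j0) then 0 else Matrix.diagonal (f c)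
    by_cases hc : c (jg, j0) = true
    · rw [if_pos hc, if_pos hc, sub_self]
    · rw [if_neg hc, if_neg hc, sub_zero]
  rw [h1, htr.n2_sq, ← map_star, ← map_mul, mtr_Xi]
  have h6 : ∀ c, τ (X.q w k c) * ntr ((star Q * Q) c) =
      ((((τ (X.q w k c)).re * (if c (jg, j0) then 0 else (n : ℝ)⁻¹) : ℝ)) : ℂ) := by
    intro c
    have hre : τ (X.q w k c) = ((τ (X.q w k c)).re : ℂ) := by
      have h7 : X.q w k c = star (X.q w k c) * X.q w k c := by
        rw [(X.q_part w k).star_eq, (X.q_part w k).mul, if_pos rfl]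
      apply Complex.ext
      · simp
      · rw [Complex.ofReal_im]
        have h8 := (hτ.pos (X.q w k c)).2
        rw [← h7] at h8
        exact h8
    by_cases hq : X.q w k c = 0
    · rw [hq, map_zero, zero_mul, Complex.zero_re, zero_mul, Complex.ofReal_zero]
    · by_cases hc : c (jg, j0) = true
      · have h9 : (star Q * Q) c = 0 := by
          show star (Q c) * Q c = 0
          have : Q c = 0 := if_pos hc
          rw [this, mul_zero]
        rw [h9, map_zero, mul_zero, if_pos hc, mul_zero, Complex.ofReal_zero]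
      · have hab : rep w c jg ≠ rep w c j0 := fun h =>
          hc ((rep_iff w c (X.isPat w k c hq) jg j0).1 h)
        have hfs : ∀ d, star (f c d) = f c d := by
          intro d
          show star ((n : ℂ)⁻¹ * ∑ s, sgn (d (s, rep w c jg)) * sgn (d (s, rep w c j0))) = _
          rw [star_mul', star_sum]
          congr 1
          · simp
          · refine Finset.sum_congr rfl fun s _ => ?_
            rw [star_mul', star_sgn, star_sgn]
        have h9 : (star Q * Q) c = Matrix.diagonal fun d => f c d ^ 2 := by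
          show star (Q c) * Q c = _
          have : Q c = Matrix.diagonal (f c) := if_neg hc
          rw [this, Matrix.star_eq_conjTranspose, Matrix.diagonal_conjTranspose,
            Matrix.diagonal_mul_diagonal]
          congr 1
          funext d
          rw [Pi.star_apply, hfs, pow_two]
        have h10 : ntr (Matrix.diagonal fun d => f c d ^ 2) = (n : ℂ)⁻¹ := by
          rw [ntr_apply, Matrix.trace_diagonal]
          show (Fintype.card (Lb n m) : ℂ)⁻¹ * ∑ d : Fin n × Fin m → ZMod 2,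
            ((n : ℂ)⁻¹ * ∑ s, sgn (d (s, rep w c jg)) * sgn (d (s, rep w c j0))) ^ 2 = _
          have hcard : (Fintype.card (Lb n m) : ℂ) ≠ 0 := by
            exact_mod_cast Fintype.card_ne_zero
          rw [sum_avg_sq hn (rep w c jg) (rep w c j0) hab]
          field_simp
        rw [h9, h10, if_neg hc, Complex.ofReal_mul, ← hre, Complex.ofReal_inv,
          Complex.ofReal_natCast]
  rw [Finset.sum_congr rfl fun c _ => h6 c, ← Complex.ofReal_sum, Complex.ofReal_re]
  have hpos : ∀ c, 0 ≤ (τ (X.q w k c)).re := by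
    intro c
    have h7 : X.q w k c = star (X.q w k c) * X.q w k c := by
      rw [(X.q_part w k).star_eq, (X.q_part w k).mul, if_pos rfl]
    have h8 := (hτ.pos (X.q w k c)).1
    rw [← h7] at h8
    exact h8
  have hsum : ∑ c, (τ (X.q w k c)).re = 1 := by
    rw [← Complex.re_sum, ← map_sum, (X.q_part w k).sum, hτ.one, Complex.one_re]
  calc ∑ c, (τ (X.q w k c)).re * (if c (jg, j0) then 0 else (n : ℝ)⁻¹)
      ≤ ∑ c, (τ (X.q w k c)).re * (n : ℝ)⁻¹ := by
        refine Finset.sum_le_sum fun c _ => mul_le_mul_of_nonneg_left ?_ (hpos c)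
        split_ifs
        · positivity
        · exact le_rfl
    _ = (n : ℝ)⁻¹ := by rw [← Finset.sum_mul, hsum, one_mul]

end Setup

/-- The data for a finite window: an amplified cocycle `θ l k` and sign unitaries `v s h k`, with the
relations for the positions in `P` and the moves in `T`. -/
theorem exists_theta {𝒜 : Type u} [CStarAlgebra 𝒜] {G : Type v} [Group G] (X : Setup 𝒜 G)
    {τ : 𝒜 →ₗ[ℂ] ℂ} (hτ : TrAlg τ) (hτu : ∀ g a, g ≠ 1 → a ∈ X.V g → τ a = 0) {S : Type w'}
    (φ : FreeGroup S →* G) (P : Finset G) (T : Finset (G × FreeGroup S)) (n : ℕ) (hn : 0 < n) :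
    ∃ (D : Type) (_ : Fintype D) (_ : DecidableEq D) (_ : Nonempty D)
      (θ : FreeGroup S → G → CStarMatrix D D 𝒜) (v : Fin n → G → G → CStarMatrix D D 𝒜),
      (∀ k, θ 1 k = 1) ∧ (∀ l l' k, θ (l * l') k = θ l k * θ l' ((φ l)⁻¹ * k)) ∧
      (∀ l k, star (θ l k) * θ l k = 1) ∧ (∀ l k, star (θ l k) = θ l⁻¹ ((φ l)⁻¹ * k)) ∧
      (∀ l g a, a ∈ X.V g → ∀ k, jmap D a * θ l k = θ l (k * g⁻¹) * jmap D a) ∧
      (∀ l k g a, g ≠ 1 → a ∈ X.V g → mtr D τ (θ l k * jmap D a) = 0) ∧
      (∀ s h k, star (v s h k) = v s h k) ∧ (∀ s h k, v s h k * v s h k = 1) ∧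
      (∀ s h g a, a ∈ X.V g → ∀ k, jmap D a * v s h k = v s h (k * g⁻¹) * jmap D a) ∧
      (∀ t ∈ T, ∀ s k, v s t.1 k * θ t.2 k = θ t.2 k * v s (t.1 * φ t.2) ((φ t.2)⁻¹ * k)) ∧
      (∀ h ∈ P, ∀ h' ∈ P, ∀ s k,
        jmap D (X.e (h * k) (h' * k)) * v s h k = jmap D (X.e (h * k) (h' * k)) * v s h' k) ∧
      ∀ h ∈ P, ∀ h' ∈ P, ∀ k, n2 (mtr D τ) (jmap D (1 - X.e (h * k) (h' * k)) *
        ((n : ℂ)⁻¹ • ∑ s, v s h k * v s h' k)) ^ 2 ≤ (n : ℝ)⁻¹ := by
  classical
  -- the window
  have hex : ∀ g : FreeGroup S, ∃ L : List (S × Bool), FreeGroup.mk L = g := fun g =>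
    Quot.exists_rep g
  choose Lg hLg using hex
  let W : Finset G := P ∪ T.biUnion fun t =>
    (Finset.range ((Lg t.2).length + 1)).image fun r => t.1 * φ (FreeGroup.mk ((Lg t.2).take r))
  let w : Fin W.card → G := fun j => (W.equivFin.symm j : G)
  have hw : ∀ h ∈ W, ∃ j, w j = h := by
    intro h hh
    refine ⟨W.equivFin ⟨h, hh⟩, ?_⟩
    show ((W.equivFin.symm (W.equivFin ⟨h, hh⟩) : W) : G) = h
    rw [Equiv.symm_apply_apply]
  let v : Fin n → G → G → CStarMatrix (Lb n W.card) (Lb n W.card) 𝒜 := fun s h k =>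
    if hh : ∃ j, w j = h then X.vv w s hh.choose k else 1
  have hv : ∀ s j k, v s (w j) k = X.vv w s j k := by
    intro s j k
    have hh : ∃ j', w j' = w j := ⟨j, rfl⟩
    show (if hh : ∃ j', w j' = w j then X.vv w s hh.choose k else 1) = X.vv w s j k
    rw [dif_pos hh]
    exact X.vv_congr w s _ _ k hh.choose_spec
  have hvc : ∀ h, (∃ j, ∀ s k, v s h k = X.vv w s j k) ∨ ∀ s k, v s h k = 1 := by
    intro h
    by_cases hh : ∃ j, w j = h
    · obtain ⟨j, rfl⟩ := hh
      exact Or.inl ⟨j, fun s k => hv s j k⟩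
    · exact Or.inr fun s k => dif_neg hh
  refine ⟨Lb n W.card, inferInstance, inferInstance, inferInstance, X.th w n φ, v,
    X.th_one w n φ, X.th_mul w n φ, X.th_left w n φ, ?_, X.th_shift w n φ,
    fun l k g a hg ha => X.mtr_th w n φ hτu l k g hg a ha, ?_, ?_, ?_, ?_, ?_, ?_⟩
  · intro l k
    rw [X.th_inv, mul_inv_cancel_left]
  · intro s h k
    rcases hvc h with ⟨j, hj⟩ | hj
    · rw [hj, X.vv_star]
    · rw [hj, star_one]
  · intro s h k
    rcases hvc h with ⟨j, hj⟩ | hj
    · rw [hj, X.vv_sq]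
    · rw [hj, mul_one]
  · intro s h g a ha k
    rcases hvc h with ⟨j, hj⟩ | hj
    · rw [hj, hj, X.vv_shift w s j k g a ha]
    · rw [hj, hj, one_mul, mul_one]
  · intro t ht s k
    have hpos : ∀ r ≤ (Lg t.2).length, ∃ j, w j = t.1 * φ (FreeGroup.mk ((Lg t.2).take r)) := by
      intro r hr
      refine hw _ (Finset.mem_union_right _ (Finset.mem_biUnion.2 ⟨t, ht, ?_⟩))
      exact Finset.mem_image.2 ⟨r, Finset.mem_range.2 (Nat.lt_succ_of_le hr), rfl⟩
    obtain ⟨j0, hj0⟩ := hpos 0 (Nat.zero_le _)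
    have h0 : w j0 = t.1 := by
      rw [hj0, List.take_zero]
      have : FreeGroup.mk ([] : List (S × Bool)) = 1 := FreeGroup.one_eq_mk.symm
      rw [this, map_one, mul_one]
    obtain ⟨j1, hj1⟩ := hpos (Lg t.2).length le_rfl
    rw [List.take_length, hLg] at hj1
    have h := X.chain w φ s (Lg t.2) j0 k (by rw [h0]; exact hpos) j1 (by rw [hLg, h0, hj1])
    rw [hLg] at h
    have e1 : v s t.1 k = X.vv w s j0 k := by rw [← h0, hv]
    have e2 : v s (t.1 * φ t.2) ((φ t.2)⁻¹ * k) = X.vv w s j1 ((φ t.2)⁻¹ * k) := by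
      rw [← hj1, hv]
    rw [e1, e2]
    exact h
  · intro h hh h' hh' s k
    obtain ⟨j, rfl⟩ := hw h (Finset.mem_union_left _ hh)
    obtain ⟨j', rfl⟩ := hw h' (Finset.mem_union_left _ hh')
    rw [hv, hv]
    exact X.e_mul_vv w s j j' k
  · intro h hh h' hh' k
    obtain ⟨j, rfl⟩ := hw h (Finset.mem_union_left _ hh)
    obtain ⟨j', rfl⟩ := hw h' (Finset.mem_union_left _ hh')
    simp only [hv]
    exact X.avg_small w hn hτ k j j'

end Pool.Agent.QFJ
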