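import Pool.Agent.QFJ.Avg
import Pool.Agent.QFP.H2x

/-!
# [QFJ.Blk] Block matrices: the induced representation on a finite set of cosets
-/

set_option autoImplicit false

namespace Pool.Agent.QFJ

open Pool.Agent.QFP Pool.Agent.QFI
open scoped Matrix.Norms.L2Operator

universe u v w'

attribute [local instance] matCStar

section dmap

variable {𝒜 : Type u} [CStarAlgebra 𝒜] {D : Type} [Fintype D] [DecidableEq D]

/-- diagonal matrices -/
noncomputable def dmap (D : Type) [Fintype D] [DecidableEq D] (𝒜 : Type u) [CStarAlgebra 𝒜] :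
    (D → 𝒜) →⋆ₐ[ℂ] CStarMatrix D D 𝒜 where
  toFun f := CStarMatrix.ofMatrix (Matrix.diagonal f)
  map_one' := by
    show (Matrix.diagonal fun _ => (1 : 𝒜)) = (1 : Matrix D D 𝒜)
    exact Matrix.diagonal_one
  map_mul' a b := (Matrix.diagonal_mul_diagonal (n := D) a b).symm
  map_zero' := by
    show (Matrix.diagonal fun _ => (0 : 𝒜)) = (0 : Matrix D D 𝒜)
    exact Matrix.diagonal_zero
  map_add' a b := (Matrix.diagonal_add (n := D) a b).symm
  commutes' z := by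
    rw [Algebra.algebraMap_eq_smul_one, Algebra.algebraMap_eq_smul_one]
    show (Matrix.diagonal fun _ => z • (1 : 𝒜) : Matrix D D 𝒜) = z • (1 : Matrix D D 𝒜)
    rw [← Matrix.diagonal_one, ← Matrix.diagonal_smul]
    rfl
  map_star' a := by
    show (Matrix.diagonal (star a) : Matrix D D 𝒜) = star (Matrix.diagonal a : Matrix D D 𝒜)
    rw [Matrix.star_eq_conjTranspose, Matrix.diagonal_conjTranspose]

theorem dmap_apply (f : D → 𝒜) (i j : D) : dmap D 𝒜 f i j = if i = j then f i else 0 := by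
  show (Matrix.diagonal f : Matrix D D 𝒜) i j = _
  rw [Matrix.diagonal_apply]

theorem mul_dmap_apply (x : CStarMatrix D D 𝒜) (f : D → 𝒜) (i j : D) :
    (x * dmap D 𝒜 f) i j = x i j * f j := by
  have h1 : (x * dmap D 𝒜 f) i j = ∑ k, x i k * dmap D 𝒜 f k j := CStarMatrix.mul_apply
  rw [h1, Finset.sum_eq_single j]
  · rw [dmap_apply, if_pos rfl]
  · intro k _ hk
    rw [dmap_apply, if_neg hk, mul_zero]
  · intro h
    exact absurd (Finset.mem_univ _) h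

theorem dmap_mul_apply (x : CStarMatrix D D 𝒜) (f : D → 𝒜) (i j : D) :
    (dmap D 𝒜 f * x) i j = f i * x i j := by
  have h1 : (dmap D 𝒜 f * x) i j = ∑ k, dmap D 𝒜 f i k * x k j := CStarMatrix.mul_apply
  rw [h1, Finset.sum_eq_single i]
  · rw [dmap_apply, if_pos rfl]
  · intro k _ hk
    rw [dmap_apply, if_neg (Ne.symm hk), zero_mul]
  · intro h
    exact absurd (Finset.mem_univ _) h

theorem norm_dmap_le (f : D → 𝒜) {C : ℝ} (hC : 0 ≤ C) (h : ∀ d, ‖f d‖ ≤ C) :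
    ‖dmap D 𝒜 f‖ ≤ C :=
  (NonUnitalStarAlgHom.norm_apply_le (dmap D 𝒜) f).trans ((pi_norm_le_iff_of_nonneg hC).2 h)

theorem mtr_dmap (τ : 𝒜 →ₗ[ℂ] ℂ) (f : D → 𝒜) :
    mtr D τ (dmap D 𝒜 f) = (Fintype.card D : ℂ)⁻¹ * ∑ d, τ (f d) := by
  rw [mtr_apply]
  congr 1
  refine Finset.sum_congr rfl fun d _ => ?_
  rw [dmap_apply, if_pos rfl]

theorem n2_dmap_sq [Nonempty D] {τ : 𝒜 →ₗ[ℂ] ℂ} (hτ : TrAlg τ) (f : D → 𝒜) :
    n2 (mtr D τ) (dmap D 𝒜 f) ^ 2 = (Fintype.card D : ℝ)⁻¹ * ∑ d, n2 τ (f d) ^ 2 := by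
  have e : mtr D τ (star (dmap D 𝒜 f) * dmap D 𝒜 f) =
      (((Fintype.card D : ℝ)⁻¹ * ∑ d, n2 τ (f d) ^ 2 : ℝ) : ℂ) := by
    rw [← map_star, ← map_mul, mtr_dmap]
    push_cast
    congr 1
    refine Finset.sum_congr rfl fun d _ => ?_
    have h := hτ.apply_sq (f d)
    push_cast at h
    exact h
  rw [(mtr_trAlg hτ).n2_sq, e, Complex.ofReal_re]

theorem mul_jmap_apply (x : CStarMatrix D D 𝒜) (a : 𝒜) (i j : D) :
    (x * jmap D a) i j = x i j * a := by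
  have h1 : (x * jmap D a) i j = ∑ k, x i k * jmap D a k j := CStarMatrix.mul_apply
  rw [h1, Finset.sum_eq_single j]
  · rw [jmap_apply, if_pos rfl]
  · intro k _ hk
    rw [jmap_apply, if_neg hk, mul_zero]
  · intro h
    exact absurd (Finset.mem_univ _) h

theorem jmap_mul_apply (x : CStarMatrix D D 𝒜) (a : 𝒜) (i j : D) :
    (jmap D a * x) i j = a * x i j := by
  have h1 : (jmap D a * x) i j = ∑ k, jmap D a i k * x k j := CStarMatrix.mul_apply
  rw [h1, Finset.sum_eq_single i]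
  · rw [jmap_apply, if_pos rfl]
  · intro k _ hk
    rw [jmap_apply, if_neg (Ne.symm hk), zero_mul]
  · intro h
    exact absurd (Finset.mem_univ _) h

end dmap

/-- A partial cocycle supported on a subgroup `L`, moved by the homogeneous elements. -/
structure PRep {𝒜 : Type u} [CStarAlgebra 𝒜] {G : Type v} [Group G] (X : Setup 𝒜 G)
    (L : Subgroup G) {ℰ : Type u} [CStarAlgebra ℰ] (j : 𝒜 →⋆ₐ[ℂ] ℰ) (Λ : G → G → ℰ) : Prop where
  one : ∀ k, Λ 1 k = 1
  zero : ∀ g k, g ∉ L → Λ g k = 0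
  mul : ∀ g h k, g ∈ L → Λ (g * h) k = Λ g k * Λ h (g⁻¹ * k)
  star_eq : ∀ g k, star (Λ g k) = Λ g⁻¹ (g⁻¹ * k)
  shift : ∀ g a, a ∈ X.V g → ∀ l k, j a * Λ l k = Λ l (k * g⁻¹) * j a

namespace PRep

variable {𝒜 : Type u} [CStarAlgebra 𝒜] {G : Type v} [Group G] {X : Setup 𝒜 G}
  {L : Subgroup G} {ℰ : Type u} [CStarAlgebra ℰ] {j : 𝒜 →⋆ₐ[ℂ] ℰ} {Λ : G → G → ℰ}
  (R : PRep X L j Λ)

include R

variable {k : ℕ} (t : Fin k → G)

omit R in
/-- the blocks `Λ (t b⁻¹ g t a) (t b⁻¹)` -/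
def Wm (Λ : G → G → ℰ) (t : Fin k → G) (g : G) : CStarMatrix (Fin k) (Fin k) ℰ :=
  CStarMatrix.ofMatrix (Matrix.of fun b a => Λ ((t b)⁻¹ * g * t a) (t b)⁻¹)

omit R [CStarAlgebra ℰ] in
theorem Wm_apply (g : G) (b a : Fin k) : Wm Λ t g b a = Λ ((t b)⁻¹ * g * t a) (t b)⁻¹ := rfl

theorem Wm_star (g : G) (a : 𝒜) (ha : a ∈ X.V g) :
    star (Wm Λ t g * jmap (Fin k) (j a)) = Wm Λ t g⁻¹ * jmap (Fin k) (j (star a)) := by
  refine CStarMatrix.ext fun b c => ?_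
  have h1 : (star (Wm Λ t g * jmap (Fin k) (j a))) b c =
      star ((Wm Λ t g * jmap (Fin k) (j a)) c b) := rfl
  rw [h1, mul_jmap_apply, mul_jmap_apply, Wm_apply, Wm_apply, star_mul, R.star_eq, ← map_star,
    R.shift g⁻¹ (star a) (X.V_star g a ha)]
  congr 2
  · group
  · group

variable (ht : ∀ a b, (t b)⁻¹ * t a ∈ L → a = b)

include ht

theorem Wm_one : Wm Λ t 1 = 1 := by
  refine CStarMatrix.ext fun i l => ?_
  have h1 : (1 : CStarMatrix (Fin k) (Fin k) ℰ) i l = if i = l then 1 else 0 :=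
    CStarMatrix.one_apply
  rw [Wm_apply, h1, mul_one]
  by_cases h : i = l
  · subst h
    rw [inv_mul_cancel, R.one, if_pos rfl]
  · rw [if_neg h, R.zero _ _ fun h' => h (ht l i h').symm]

omit R ht in
open scoped Classical in
/-- the rows on which the products are right -/
noncomputable def good (ℰ : Type u) [CStarAlgebra ℰ] (L : Subgroup G) {k : ℕ} (t : Fin k → G)
    (g : G) : Fin k → ℰ :=
  fun c => if ∃ b, (t c)⁻¹ * g * t b ∈ L then 1 else 0

theorem Wm_mul (g h : G) (a : 𝒜) (ha : a ∈ X.V g) :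
    Wm Λ t g * jmap (Fin k) (j a) * Wm Λ t h =
      dmap (Fin k) ℰ (good ℰ L t g) * Wm Λ t (g * h) * jmap (Fin k) (j a) := by
  classical
  refine CStarMatrix.ext fun c a' => ?_
  have h1 : (Wm Λ t g * jmap (Fin k) (j a) * Wm Λ t h) c a' =
      ∑ b, (Wm Λ t g * jmap (Fin k) (j a)) c b * Wm Λ t h b a' := CStarMatrix.mul_apply
  rw [h1, mul_jmap_apply, dmap_mul_apply]
  simp only [Wm_apply, mul_jmap_apply]
  unfold good
  by_cases hc : ∃ b, (t c)⁻¹ * g * t b ∈ L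
  · rw [if_pos hc, one_mul]
    obtain ⟨b, hb⟩ := hc
    rw [Finset.sum_eq_single b]
    · rw [mul_assoc, R.shift g a ha, ← mul_assoc]
      have h2 : (t c)⁻¹ * (g * h) * t a' = ((t c)⁻¹ * g * t b) * ((t b)⁻¹ * h * t a') := by group
      have h3 : ((t c)⁻¹ * g * t b)⁻¹ * (t c)⁻¹ = (t b)⁻¹ * g⁻¹ := by group
      rw [h2, R.mul _ _ _ hb, h3]
    · intro b' _ hb'
      have h2 : (t c)⁻¹ * g * t b' ∉ L := by
        intro h3
        refine hb' (ht b' b ?_)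
        have h4 := mul_mem (inv_mem hb) h3
        have h5 : ((t c)⁻¹ * g * t b)⁻¹ * ((t c)⁻¹ * g * t b') = (t b)⁻¹ * t b' := by group
        rw [h5] at h4
        exact h4
      rw [R.zero _ _ h2, zero_mul, zero_mul]
    · intro h
      exact absurd (Finset.mem_univ _) h
  · rw [if_neg hc, zero_mul, zero_mul]
    refine Finset.sum_eq_zero fun b _ => ?_
    have h2 : (t c)⁻¹ * g * t b ∉ L := fun h3 => hc ⟨b, h3⟩
    rw [R.zero _ _ h2, zero_mul, zero_mul]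

omit R ht in
theorem norm_good_le (g : G) : ‖dmap (Fin k) ℰ (good ℰ L t g)‖ ≤ 1 := by
  classical
  refine norm_dmap_le _ zero_le_one fun d => ?_
  unfold good
  split_ifs
  · exact H2x_norm _ (by rw [star_one, mul_one])
  · rw [norm_zero]
    exact zero_le_one

theorem norm_Wm_le (g : G) : ‖Wm Λ t g‖ ≤ 1 := by
  classical
  have h1 : star (Wm Λ t g) * Wm Λ t g = dmap (Fin k) ℰ (good ℰ L t g⁻¹) := by
    refine CStarMatrix.ext fun a a' => ?_
    have h1 : (star (Wm Λ t g) * Wm Λ t g) a a' =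
        ∑ b, star (Wm Λ t g b a) * Wm Λ t g b a' := CStarMatrix.mul_apply
    rw [h1, dmap_apply]
    simp only [Wm_apply, R.star_eq]
    have e1 : ∀ b, ((t b)⁻¹ * g * t a)⁻¹ = (t a)⁻¹ * g⁻¹ * t b := fun b => by group
    simp only [e1]
    unfold good
    by_cases hc : ∃ b, (t a)⁻¹ * g⁻¹ * t b ∈ L
    · obtain ⟨b, hb⟩ := hc
      rw [Finset.sum_eq_single b]
      · have h2 : (t a)⁻¹ * g⁻¹ * t b * (t b)⁻¹ = (t a)⁻¹ * g⁻¹ := by group
        have h3 : ((t a)⁻¹ * g⁻¹ * t b)⁻¹ * ((t a)⁻¹ * g⁻¹) = (t b)⁻¹ := by group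
        have h4 := R.mul ((t a)⁻¹ * g⁻¹ * t b) ((t b)⁻¹ * g * t a') ((t a)⁻¹ * g⁻¹) hb
        rw [h3] at h4
        rw [h2, ← h4]
        have h5 : (t a)⁻¹ * g⁻¹ * t b * ((t b)⁻¹ * g * t a') = (t a)⁻¹ * t a' := by group
        rw [h5]
        by_cases h : a = a'
        · subst h
          rw [inv_mul_cancel, R.one, if_pos rfl, if_pos ⟨b, hb⟩]
        · rw [if_neg h, R.zero _ _ fun h' => h (ht a' a h').symm]
      · intro b' _ hb'
        have h2 : (t a)⁻¹ * g⁻¹ * t b' ∉ L := by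
          intro h3
          refine hb' (ht b' b ?_)
          have h4 := mul_mem (inv_mem hb) h3
          have h5 : ((t a)⁻¹ * g⁻¹ * t b)⁻¹ * ((t a)⁻¹ * g⁻¹ * t b') = (t b)⁻¹ * t b' := by group
          rw [h5] at h4
          exact h4
        rw [R.zero _ _ h2, zero_mul]
      · intro h
        exact absurd (Finset.mem_univ _) h
    · rw [if_neg hc, ite_self]
      refine Finset.sum_eq_zero fun b _ => ?_
      have h2 : (t a)⁻¹ * g⁻¹ * t b ∉ L := fun h3 => hc ⟨b, h3⟩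
      rw [R.zero _ _ h2, zero_mul]
  have h2 : ‖Wm Λ t g‖ * ‖Wm Λ t g‖ ≤ 1 := by
    rw [← CStarRing.norm_star_mul_self, h1]
    exact norm_good_le t _
  nlinarith [norm_nonneg (Wm Λ t g)]

end PRep

section lam

variable {𝒜 : Type u} [CStarAlgebra 𝒜] {G : Type v} [Group G] {X : Setup 𝒜 G}
  {ℰ : Type u} [CStarAlgebra ℰ] {S : Type w'}

open scoped Classical in
/-- the partial cocycle given by a cocycle of a free subgroup -/
noncomputable def lam (φ : FreeGroup S →* G) (θ : FreeGroup S → G → ℰ) (g k : G) : ℰ :=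
  if h : ∃ f, φ f = g then θ h.choose k else 0

omit [CStarAlgebra ℰ] in
theorem lam_map [CStarAlgebra ℰ] {φ : FreeGroup S →* G} (hφ : Function.Injective φ)
    (θ : FreeGroup S → G → ℰ) (f : FreeGroup S) (k : G) : lam φ θ (φ f) k = θ f k := by
  unfold lam
  have h : ∃ f', φ f' = φ f := ⟨f, rfl⟩
  rw [dif_pos h, hφ h.choose_spec]

theorem lam_not {φ : FreeGroup S →* G} (θ : FreeGroup S → G → ℰ) {g : G} (k : G)
    (h : g ∉ φ.range) : lam φ θ g k = 0 := by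
  unfold lam
  rw [dif_neg]
  rintro ⟨f, hf⟩
  exact h ⟨f, hf⟩

theorem prep_lam {φ : FreeGroup S →* G} (hφ : Function.Injective φ)
    (θ : FreeGroup S → G → ℰ) (j : 𝒜 →⋆ₐ[ℂ] ℰ) (h1 : ∀ k, θ 1 k = 1)
    (hm : ∀ l l' k, θ (l * l') k = θ l k * θ l' ((φ l)⁻¹ * k))
    (hs : ∀ l k, star (θ l k) = θ l⁻¹ ((φ l)⁻¹ * k))
    (hsh : ∀ l g a, a ∈ X.V g → ∀ k, j a * θ l k = θ l (k * g⁻¹) * j a) :
    PRep X φ.range j (lam φ θ) where
  one k := by
    have h := lam_map hφ θ 1 k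
    rw [map_one, h1] at h
    exact h
  zero g k hg := lam_not θ k hg
  mul g h k hg := by
    obtain ⟨f, rfl⟩ := hg
    by_cases hh : h ∈ φ.range
    · obtain ⟨f', rfl⟩ := hh
      rw [← map_mul, lam_map hφ, lam_map hφ, lam_map hφ, hm]
    · have hg' : φ f * h ∉ φ.range := fun h' =>
        hh ((Subgroup.mul_mem_cancel_left _ (show φ f ∈ φ.range from ⟨f, rfl⟩)).1 h')
      rw [lam_not θ _ hg', lam_not θ _ hh, mul_zero]
  star_eq g k := by
    by_cases hg : g ∈ φ.range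
    · obtain ⟨f, rfl⟩ := hg
      rw [lam_map hφ, ← map_inv, lam_map hφ, hs, map_inv]
    · have hg' : g⁻¹ ∉ φ.range := fun h => hg (inv_mem_iff.1 h)
      rw [lam_not θ _ hg, lam_not θ _ hg', star_zero]
  shift g a ha l k := by
    by_cases hl : l ∈ φ.range
    · obtain ⟨f, rfl⟩ := hl
      rw [lam_map hφ, lam_map hφ]
      exact hsh f g a ha k
    · rw [lam_not θ _ hl, lam_not θ _ hl, zero_mul, mul_zero]

end lam

/-- Følner sets of cosets of free subgroups, in terms of representatives. -/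
def FolnerReps (G : Type v) [Group G] : Prop :=
  ∀ (T : Finset G) (δ : ℝ), 0 < δ → ∃ (S : Type v) (φ : FreeGroup S →* G)
    (_ : Function.Injective φ) (k : ℕ) (_ : 0 < k) (t : Fin k → G),
    (∀ a b, (t b)⁻¹ * t a ∈ φ.range → a = b) ∧
    ∀ g ∈ T, (Nat.card {c : Fin k // ¬ ∃ b, (t c)⁻¹ * g * t b ∈ φ.range} : ℝ) ≤ δ * k

/-- Følner sets of cosets of free subgroups -/
def FreeFolner (G : Type v) [Group G] : Prop :=
  ∀ (T : Finset G) (δ : ℝ), 0 < δ → ∃ L : Subgroup G, IsFreeGroup L ∧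
    ∃ Φ : Finset (G ⧸ L), Φ.Nonempty ∧
      ∀ g ∈ T, ({q : G ⧸ L | q ∈ Φ ∧ g • q ∉ Φ}.ncard : ℝ) ≤ δ * Φ.card

theorem FreeFolner.reps {G : Type v} [Group G] (h : FreeFolner G) : FolnerReps G := by
  classical
  intro T δ hδ
  obtain ⟨L, hL, Φ, hΦ, hT⟩ := h (T.image (·⁻¹)) δ hδ
  obtain ⟨S, ⟨b⟩⟩ := hL.nonempty_basis
  let φ : FreeGroup S →* G := L.subtype.comp b.repr.symm.toMonoidHom
  have hφ : Function.Injective φ := fun x y hxy =>
    b.repr.symm.injective (Subtype.val_injective hxy)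
  have hr : φ.range = L := by
    ext g
    constructor
    · rintro ⟨f, rfl⟩
      exact (b.repr.symm f).2
    · intro hg
      refine ⟨b.repr ⟨g, hg⟩, ?_⟩
      show ((b.repr.symm (b.repr ⟨g, hg⟩) : L) : G) = g
      rw [MulEquiv.symm_apply_apply]
  let Q : Fin Φ.card → G ⧸ L := fun c => (Φ.equivFin.symm c : G ⧸ L)
  have hQ : ∀ c, Q c ∈ Φ := fun c => (Φ.equivFin.symm c).2
  have hQi : Function.Injective Q := fun c c' hcc =>
    Φ.equivFin.symm.injective (Subtype.val_injective hcc)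
  have hQs : ∀ q ∈ Φ, ∃ c, Q c = q := by
    intro q hq
    refine ⟨Φ.equivFin ⟨q, hq⟩, ?_⟩
    show ((Φ.equivFin.symm (Φ.equivFin ⟨q, hq⟩) : Φ) : G ⧸ L) = q
    rw [Equiv.symm_apply_apply]
  let t : Fin Φ.card → G := fun c => (Q c).out
  have ht : ∀ c, (QuotientGroup.mk (t c) : G ⧸ L) = Q c := fun c => QuotientGroup.out_eq' (Q c)
  refine ⟨S, φ, hφ, Φ.card, hΦ.card_pos, t, ?_, ?_⟩
  · intro a c hac
    rw [hr] at hac
    have h1 : (QuotientGroup.mk (t c) : G ⧸ L) = QuotientGroup.mk (t a) :=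
      QuotientGroup.eq.2 hac
    rw [ht, ht] at h1
    exact (hQi h1).symm
  · intro g hg
    have h1 := hT g⁻¹ (Finset.mem_image_of_mem _ hg)
    refine le_trans ?_ h1
    have h2 : ∀ c : Fin Φ.card, (¬ ∃ c', (t c)⁻¹ * g * t c' ∈ φ.range) →
        Q c ∈ Φ ∧ g⁻¹ • Q c ∉ Φ := by
      intro c hc
      refine ⟨hQ c, fun h3 => hc ?_⟩
      obtain ⟨c', hc'⟩ := hQs _ h3
      refine ⟨c', ?_⟩
      rw [hr]
      have h4 : g • Q c' = Q c := by rw [hc', smul_inv_smul]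
      rw [← ht, ← ht] at h4
      have h5 : (QuotientGroup.mk (g * t c') : G ⧸ L) = QuotientGroup.mk (t c) := h4
      have h6 := QuotientGroup.eq.1 h5.symm
      rw [← mul_assoc] at h6
      exact h6
    have h3 : {q : G ⧸ L | q ∈ Φ ∧ g⁻¹ • q ∉ Φ}.Finite :=
      Set.Finite.subset Φ.finite_toSet fun q hq => hq.1
    have h4 : Nat.card {c : Fin Φ.card // ¬ ∃ b, (t c)⁻¹ * g * t b ∈ φ.range} ≤
        {q : G ⧸ L | q ∈ Φ ∧ g⁻¹ • q ∉ Φ}.ncard := by
      have : Finite {q : G ⧸ L | q ∈ Φ ∧ g⁻¹ • q ∉ Φ} := h3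
      refine Nat.card_le_card_of_injective
        (fun c => (⟨Q c.1, h2 c.1 c.2⟩ : {q : G ⧸ L | q ∈ Φ ∧ g⁻¹ • q ∉ Φ}))
        fun c c' hcc => ?_
      have h5 : Q c.1 = Q c'.1 := Subtype.mk.inj hcc
      exact Subtype.ext (hQi h5)
    exact_mod_cast h4

end Pool.Agent.QFJ
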