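import Pool.Agent.QFP.L5
import Pool.Agent.QFP.W1

/-!
# [QFJ.Proj] Conditional expectations, supports of ideals
-/

set_option autoImplicit false

namespace Pool.Agent.QFJ

open Pool.Agent.QFP
open scoped Matrix.Norms.L2Operator InnerProductSpace

universe u v w

variable {H : Type u} [NormedAddCommGroup H] [InnerProductSpace ℂ H] [CompleteSpace H]
  {A B N : VonNeumannAlgebra H} {τ : Alg A →ₗ[ℂ] ℂ}

/-- membership of an element of `A` in a von Neumann algebra -/
abbrev In (N : VonNeumannAlgebra H) (a : Alg A) : Prop := (a : H →L[ℂ] H) ∈ N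

theorem In.mul {a b : Alg A} (ha : In N a) (hb : In N b) : In N (a * b) :=
  mul_mem (show (a : H →L[ℂ] H) ∈ N from ha) (show (b : H →L[ℂ] H) ∈ N from hb)

theorem In.star {a : Alg A} (ha : In N a) : In N (star a) :=
  star_mem (show (a : H →L[ℂ] H) ∈ N from ha)

theorem In.sub {a b : Alg A} (ha : In N a) (hb : In N b) : In N (a - b) :=
  sub_mem (show (a : H →L[ℂ] H) ∈ N from ha) (show (b : H →L[ℂ] H) ∈ N from hb)

theorem In.one : In N (1 : Alg A) := one_mem N

/-- an element of `B` orthogonal to `B` vanishes -/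
theorem eq_zero_of_perp (hτ : IsTrace A τ) {x : Alg A} (hx : In B x) (hp : Perp A B τ x) :
    x = 0 := by
  have h1 : τ (star x * x) = 0 := by
    rw [hτ.tracial]
    exact hp _ hx.star
  exact hτ.faithful x h1

theorem perp_mul_left (hτ : IsTrace A τ) {x y : Alg A} (hx : Perp A B τ x) (hy : In B y) :
    Perp A B τ (y * x) := by
  intro b hb
  rw [mul_assoc, hτ.tracial, mul_assoc]
  exact hx _ (In.mul hb hy)

theorem perp_mul_right {x y : Alg A} (hx : Perp A B τ x) (hy : In B y) : Perp A B τ (x * y) := by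
  intro b hb
  rw [mul_assoc]
  exact hx _ (In.mul hy hb)

theorem perp_sub {x y : Alg A} (hx : Perp A B τ x) (hy : Perp A B τ y) : Perp A B τ (x - y) := by
  intro b hb
  rw [sub_mul, map_sub, hx b hb, hy b hb, sub_zero]

/-- `e` is a central projection of `N`, the support of the set `I ⊆ N` -/
structure IsSupp (N : VonNeumannAlgebra H) (I : Set (Alg A)) (e : Alg A) : Prop where
  mem : In N e
  star_eq : star e = e
  idem : e * e = e
  comm : ∀ x : Alg A, In N x → e * x = x * e
  left : ∀ i ∈ I, e * i = i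
  kill : ∀ z : Alg A, (∀ i ∈ I, z * i = 0) → z * e = 0

/-- supports of left ideals of `N` -/
theorem exists_supp (hNA : ∀ x : H →L[ℂ] H, x ∈ N → x ∈ A) (I : Set (Alg A))
    (hI : ∀ i ∈ I, In N i) (hl : ∀ x : Alg A, In N x → ∀ i ∈ I, x * i ∈ I) :
    ∃ e : Alg A, IsSupp N I e := by
  obtain ⟨K, hK⟩ : ∃ K : Submodule ℂ H, K = (Submodule.span ℂ
    {ξ | ∃ i ∈ I, ∃ η, ξ = ((i : Alg A) : H →L[ℂ] H) η}).topologicalClosure := ⟨_, rfl⟩
  have hKc : IsClosed (K : Set H) := by
    rw [hK]
    exact Submodule.isClosed_topologicalClosure _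
  have iK : CompleteSpace K := hKc.completeSpace_coe
  have hmem : ∀ i ∈ I, ∀ η, ((i : Alg A) : H →L[ℂ] H) η ∈ K := by
    intro i hi η
    rw [hK]
    exact Submodule.le_topologicalClosure _ (Submodule.subset_span ⟨i, hi, η, rfl⟩)
  -- an operator which maps the generators to a closed subspace maps `K` to it
  have hext : ∀ (L : Submodule ℂ H), IsClosed (L : Set H) → ∀ y : H →L[ℂ] H,
      (∀ i ∈ I, ∀ η, y (((i : Alg A) : H →L[ℂ] H) η) ∈ L) → ∀ ξ ∈ K, y ξ ∈ L := by
    intro L hL y hy ξ hξ
    have h1 : K ≤ L.comap (y : H →ₗ[ℂ] H) := by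
      rw [hK]
      refine Submodule.topologicalClosure_minimal _ ?_ ?_
      · rw [Submodule.span_le]
        rintro ξ ⟨i, hi, η, rfl⟩
        exact hy i hi η
      · exact hL.preimage y.continuous
    exact h1 hξ
  have hp : IsStarProjection K.starProjection := isStarProjection_starProjection
  have hN : K.starProjection ∈ N := by
    rw [VonNeumannAlgebra.IsStarProjection.mem_iff hp]
    intro y hy
    rw [VonNeumannAlgebra.mem_commutant_iff] at hy
    have hr : K.starProjection.range = K := Submodule.range_starProjection K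
    rw [hr, Module.End.mem_invtSubmodule]
    intro ξ hξ
    show y ξ ∈ K
    refine hext K hKc y ?_ ξ hξ
    intro i hi η
    have h1 : ((i : Alg A) : H →L[ℂ] H) * y = y * ((i : Alg A) : H →L[ℂ] H) := hy _ (hI i hi)
    have h2 : y (((i : Alg A) : H →L[ℂ] H) η) = ((i : Alg A) : H →L[ℂ] H) (y η) :=
      (DFunLike.congr_fun h1 η).symm
    rw [h2]
    exact hmem i hi _
  have hkill : ∀ z : Alg A, (∀ i ∈ I, z * i = 0) → ∀ ξ ∈ K, (z : H →L[ℂ] H) ξ = 0 := by
    intro z hz ξ hξ
    have h1 := hext ⊥ (by simp) (z : H →L[ℂ] H) (by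
      intro i hi η
      rw [Submodule.mem_bot]
      exact DFunLike.congr_fun (congrArg Subtype.val (hz i hi)) η) ξ hξ
    exact (Submodule.mem_bot ℂ).1 h1
  obtain ⟨e, he⟩ : ∃ e : Alg A, (e : H →L[ℂ] H) = K.starProjection :=
    ⟨⟨K.starProjection, hNA _ hN⟩, rfl⟩
  have hemem : In N e := by
    show (e : H →L[ℂ] H) ∈ N
    rw [he]
    exact hN
  have hes : star e = e := by
    apply Subtype.ext
    show star (e : H →L[ℂ] H) = e
    rw [he]
    exact hp.isSelfAdjoint
  have hei : e * e = e := by
    apply Subtype.ext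
    show (e : H →L[ℂ] H) * e = e
    rw [he]
    exact hp.isIdempotentElem
  have hel : ∀ i ∈ I, e * i = i := by
    intro i hi
    apply Subtype.ext
    show (e : H →L[ℂ] H) * i = i
    ext η
    rw [he]
    exact Submodule.starProjection_eq_self_iff.2 (hmem i hi η)
  have hek : ∀ z : Alg A, (∀ i ∈ I, z * i = 0) → z * e = 0 := by
    intro z hz
    apply Subtype.ext
    show (z : H →L[ℂ] H) * e = 0
    ext η
    show (z : H →L[ℂ] H) ((e : H →L[ℂ] H) η) = 0
    refine hkill z hz _ ?_
    rw [he]
    exact Submodule.starProjection_apply_mem K η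
  refine ⟨e, hemem, hes, hei, ?_, hel, hek⟩
  -- centrality
  have key : ∀ x : Alg A, In N x → x * e = e * x * e := by
    intro x hx
    have h1 := hek ((1 - e) * x) (by
      intro i hi
      rw [mul_assoc, sub_mul, one_mul, hel _ (hl x hx i hi), sub_self])
    rw [sub_mul, one_mul, sub_mul, sub_eq_zero] at h1
    exact h1
  intro x hx
  have h1 := key x hx
  have h2 := congrArg star (key (star x) hx.star)
  rw [star_mul, star_mul, star_mul, star_star, hes] at h2
  exact h2.trans ((mul_assoc _ _ _).symm.trans h1.symm)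

variable {I : Set (Alg A)} {e : Alg A}

theorem IsSupp.of_sq (h : IsSupp N I e) {y : Alg A} (hy : y * star y ∈ I) : e * y = y := by
  have h1 := h.left _ hy
  have h2 : (y - e * y) * star (y - e * y) = 0 := by
    have e1 : (y - e * y) * star (y - e * y) = (1 - e) * (y * star y) * (1 - e) := by
      rw [star_sub, star_mul, h.star_eq]
      noncomm_ring
    rw [e1, sub_mul 1 e (y * star y), one_mul, h1, sub_self, zero_mul]
  exact (sub_eq_zero.1 (CStarRing.mul_star_self_eq_zero_iff _ |>.1 h2)).symm

theorem IsSupp.kill_left (h : IsSupp N I e) {y : Alg A} (hy : ∀ i ∈ I, star i * y = 0) :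
    e * y = 0 := by
  have h1 := h.kill (star y) (by
    intro i hi
    have h2 := congrArg star (hy i hi)
    rw [star_mul, star_star, star_zero] at h2
    exact h2)
  have h3 := congrArg star h1
  rw [star_mul, star_star, h.star_eq, star_zero] at h3
  exact h3

end Pool.Agent.QFJ
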