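import Pool.Agent.QFP.F1y
import Pool.Agent.QFJ.Proj

/-!
# [QFJ.Irr] Normalising elements and intermediate algebras

If `N ⊆ B ⊆ A` with `N' ∩ A ⊆ N` and `a ∈ A` satisfies `a a* ∈ N` and `a* N a ⊆ N` then
`E_B(a) = z a` for some `z ∈ N`.
-/

set_option autoImplicit false

namespace Pool.Agent.QFJ

open Pool.Agent.QFP
open scoped Matrix.Norms.L2Operator InnerProductSpace

universe u v w

variable {H : Type u} [NormedAddCommGroup H] [InnerProductSpace ℂ H] [CompleteSpace H]
  {A B N Q : VonNeumannAlgebra H} {τ : Alg A →ₗ[ℂ] ℂ}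

/-- the relative commutant as a von Neumann algebra -/
theorem exists_relComm (A N : VonNeumannAlgebra H) : ∃ Q : VonNeumannAlgebra H,
    ∀ x : H →L[ℂ] H, x ∈ Q ↔ x ∈ A ∧ ∀ y ∈ N, y * x = x * y := by
  refine ⟨{ toStarSubalgebra := StarSubalgebra.centralizer ℂ
              ((N : Set (H →L[ℂ] H)) ∪ (A.commutant : Set (H →L[ℂ] H)))
            centralizer_centralizer' := by simp }, ?_⟩
  intro x
  have h1 : x ∈ A ↔ ∀ y ∈ A.commutant, y * x = x * y := by
    rw [← VonNeumannAlgebra.mem_commutant_iff, VonNeumannAlgebra.commutant_commutant]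
  show x ∈ StarSubalgebra.centralizer ℂ
              ((N : Set (H →L[ℂ] H)) ∪ (A.commutant : Set (H →L[ℂ] H))) ↔ _
  rw [StarSubalgebra.mem_centralizer_iff, h1]
  constructor
  · intro h
    exact ⟨fun y hy => (h y (Or.inr hy)).1, fun y hy => (h y (Or.inl hy)).1⟩
  · rintro ⟨h2, h3⟩ y (hy | hy)
    · exact ⟨h3 y hy, h3 _ (star_mem hy)⟩
    · exact ⟨h2 y hy, h2 _ (star_mem hy)⟩

/-- sums over lists of conjugates -/
theorem lsum_identity {D G : Type*} [CStarAlgebra D] (σ : G → D →⋆ₐ[ℂ] D) {x y p q r : D}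
    (h : ∀ g, σ g x * p - σ g y * q = r) (l : List G) :
    (l.map fun g => σ g x).sum * p - (l.map fun g => σ g y).sum * q = (l.length : ℂ) • r := by
  induction l with
  | nil => simp
  | cons g l ih =>
    rw [List.map_cons, List.sum_cons, List.map_cons, List.sum_cons, List.length_cons,
      Nat.cast_succ, add_smul, one_smul, ← ih, ← h g]
    noncomm_ring

theorem lavg_identity {D G : Type*} [CStarAlgebra D] (σ : G → D →⋆ₐ[ℂ] D) {x y p q r : D}
    (h : ∀ g, σ g x * p - σ g y * q = r) (l : List G) (hl : l ≠ []) :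
    lavg σ l x * p - lavg σ l y * q = r := by
  have h1 := lsum_identity σ h l
  have h2 : (l.length : ℂ) ≠ 0 := Nat.cast_ne_zero.2 (List.length_pos_iff.2 hl).ne'
  unfold lavg
  rw [smul_mul_assoc, smul_mul_assoc, ← smul_sub, h1, smul_smul, inv_mul_cancel₀ h2, one_smul]

/-- an identity between averages over the unitaries of `N` -/
theorem averaged (hτ : IsTrace A τ) (hNA : ∀ x : H →L[ℂ] H, x ∈ N → x ∈ A)
    (hQ : ∀ x : H →L[ℂ] H, x ∈ Q ↔ x ∈ A ∧ ∀ y ∈ N, y * x = x * y) {h c a b T S : Alg A}
    (hid : ∀ n : Alg A, In N n → h * n * b = c * n * a) (hT : In Q T) (hS : In Q S)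
    (hTp : Perp A Q τ (h - T)) (hSp : Perp A Q τ (c - S)) (k : Alg A) (hk : In N k) :
    T * k * b = S * k * a := by
  have hle : N.toStarSubalgebra ≤ A.toStarSubalgebra := fun x hx => hNA x hx
  let Ψ : Alg N →⋆ₐ[ℂ] Alg A := StarSubalgebra.inclusion hle
  have hΨv : ∀ x : Alg N, ((Ψ x : Alg A) : H →L[ℂ] H) = (x : H →L[ℂ] H) := fun x => rfl
  have hu1 : ∀ u : unitary (Alg N), Ψ (u : Alg N) * star (Ψ (u : Alg N)) = 1 := fun u => by
    rw [← map_star, ← map_mul, Unitary.mul_star_self_of_mem u.2, map_one]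
  have hu2 : ∀ u : unitary (Alg N), star (Ψ (u : Alg N)) * Ψ (u : Alg N) = 1 := fun u => by
    rw [← map_star, ← map_mul, Unitary.star_mul_self_of_mem u.2, map_one]
  have hqc : ∀ x : Alg A, In Q x → ∀ y : Alg A, In N y → y * x = x * y := fun x hx y hy =>
    Subtype.ext (((hQ _).1 hx).2 _ hy)
  have htr := hτ.trAlg
  let σ : unitary (Alg N) → Alg A →⋆ₐ[ℂ] Alg A := fun u =>
    F1y_conj (Ψ (u : Alg N)) (hu1 u) (hu2 u)
  have hσ : ∀ u x, σ u x = Ψ (u : Alg N) * x * star (Ψ (u : Alg N)) := fun u x => rfl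
  have hfix : ∀ x : Alg A, (∀ u, σ u x = x) → In Q x := by
    intro x hx
    refine (hQ _).2 ⟨x.2, fun y hy => ?_⟩
    have h1 : (⟨y, hy⟩ : Alg N) ∈ Submodule.span ℂ (unitary (Alg N) : Set (Alg N)) := by
      rw [CStarAlgebra.span_unitary]
      exact Submodule.mem_top
    have h2 : ∀ z : Alg N, z ∈ Submodule.span ℂ (unitary (Alg N) : Set (Alg N)) →
        Ψ z * x = x * Ψ z := by
      intro z hz
      induction hz using Submodule.span_induction with
      | mem z hz =>
        have h3 : Ψ z * x * star (Ψ z) = x := hx ⟨z, hz⟩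
        have h4 : star (Ψ z) * Ψ z = 1 := hu2 ⟨z, hz⟩
        calc Ψ z * x = Ψ z * x * (star (Ψ z) * Ψ z) := by rw [h4, mul_one]
          _ = Ψ z * x * star (Ψ z) * Ψ z := by rw [mul_assoc _ (star (Ψ z))]
          _ = x * Ψ z := by rw [h3]
      | zero => rw [map_zero, mul_zero, zero_mul]
      | add z z' _ _ h3 h4 => rw [map_add, mul_add, add_mul, h3, h4]
      | smul r z _ h3 => rw [map_smul, mul_smul_comm, smul_mul_assoc, h3]
    exact congrArg Subtype.val (h2 ⟨y, hy⟩ h1)
  have hcomm : ∀ x : Alg A, In Q x → ∀ u, σ u x = x := by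
    intro x hx u
    rw [hσ, hqc x hx _ (u : Alg N).2, mul_assoc, hu1, mul_one]
  -- the identity for conjugates
  have hg : ∀ u, σ u (h - T) * (k * b) - σ u (c - S) * (k * a) =
      -(T * k * b - S * k * a) := by
    intro u
    have h1 := hid (star (Ψ (u : Alg N)) * k) (In.mul (In.star (u : Alg N).2) hk)
    rw [map_sub, map_sub, hcomm T hT u, hcomm S hS u, hσ, hσ]
    have h2 : Ψ (u : Alg N) * h * star (Ψ (u : Alg N)) * (k * b) =
        Ψ (u : Alg N) * c * star (Ψ (u : Alg N)) * (k * a) := by
      calc Ψ (u : Alg N) * h * star (Ψ (u : Alg N)) * (k * b) =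
          Ψ (u : Alg N) * (h * (star (Ψ (u : Alg N)) * k) * b) := by noncomm_ring
        _ = Ψ (u : Alg N) * (c * (star (Ψ (u : Alg N)) * k) * a) := by rw [h1]
        _ = _ := by noncomm_ring
    rw [sub_mul, sub_mul, h2]
    noncomm_ring
  have hn : n2 τ (T * k * b - S * k * a) = 0 := by
    refine le_antisymm ?_ (n2_nonneg _ _)
    refine le_of_forall_pos_le_add fun ε hε => ?_
    have hM : 0 < ‖k * b‖ + ‖k * a‖ + 1 := by positivity
    obtain ⟨l, hl, hl2⟩ := exists_small_avgs htr hτ.ballComplete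
      (fun x hx => hτ.eq_zero_of_n2 x hx) σ (by
        intro x
        rw [hσ, OneMemClass.coe_one, map_one, star_one, one_mul, mul_one]) (by
        intro g g' x
        rw [hσ, hσ, hσ]
        show Ψ ((g : Alg N) * (g' : Alg N)) * x * star (Ψ ((g : Alg N) * (g' : Alg N))) = _
        rw [map_mul, star_mul]
        noncomm_ring) (by
        intro g x
        rw [hσ, hτ.tracial, ← mul_assoc, hu2 g, one_mul]) [h - T, c - S] (by
        intro x hx y hy
        have hy' : In Q (star y) := (hfix y hy).star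
        rw [hτ.tracial]
        simp only [List.mem_cons, List.not_mem_nil, or_false] at hx
        rcases hx with rfl | rfl
        · exact hTp _ hy'
        · exact hSp _ hy') (ε / (‖k * b‖ + ‖k * a‖ + 1)) (by positivity)
    have h1 := lavg_identity σ hg l hl
    have h2 := hl2 (h - T) (by simp)
    have h3 := hl2 (c - S) (by simp)
    have h4 : n2 τ (T * k * b - S * k * a) ≤
        n2 τ (lavg σ l (h - T)) * ‖k * b‖ + n2 τ (lavg σ l (c - S)) * ‖k * a‖ := by
      rw [← htr.n2_neg, ← h1, sub_eq_add_neg]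
      refine (htr.n2_add_le _ _).trans ?_
      rw [htr.n2_neg]
      exact add_le_add (htr.n2_mul_right _ _) (htr.n2_mul_right _ _)
    rw [zero_add]
    refine h4.trans ?_
    have h5 : n2 τ (lavg σ l (h - T)) * ‖k * b‖ ≤
        ε / (‖k * b‖ + ‖k * a‖ + 1) * ‖k * b‖ :=
      mul_le_mul_of_nonneg_right h2.le (norm_nonneg _)
    have h6 : n2 τ (lavg σ l (c - S)) * ‖k * a‖ ≤
        ε / (‖k * b‖ + ‖k * a‖ + 1) * ‖k * a‖ :=
      mul_le_mul_of_nonneg_right h3.le (norm_nonneg _)
    have h7 : ε / (‖k * b‖ + ‖k * a‖ + 1) * (‖k * b‖ + ‖k * a‖ + 1) = ε :=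
      div_mul_cancel₀ _ hM.ne'
    have h8 : 0 ≤ ε / (‖k * b‖ + ‖k * a‖ + 1) := by positivity
    nlinarith
  exact sub_eq_zero.1 (hτ.eq_zero_of_n2 _ hn)

/-- `E_B(a) = z a` with `z ∈ N` -/
theorem exists_mul_of_relComm (hτ : IsTrace A τ) (hBA : ∀ x : H →L[ℂ] H, x ∈ B → x ∈ A)
    (hNB : ∀ x : H →L[ℂ] H, x ∈ N → x ∈ B)
    (hirr : ∀ a : Alg A, (∀ x : Alg A, In N x → a * x = x * a) → In N a) (a : Alg A)
    (hl : In N (a * star a)) (hr : ∀ x : Alg A, In N x → In N (star a * x * a)) :
    ∃ z : Alg A, In N z ∧ In B (z * a) ∧ Perp A B τ (a - z * a) := by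
  obtain ⟨b, hb, hp⟩ := exists_condexp hBA hτ a
  have hNB' : ∀ x : Alg A, In N x → In B x := fun x hx => hNB _ hx
  have hNA : ∀ x : H →L[ℂ] H, x ∈ N → x ∈ A := fun x hx => hBA x (hNB x hx)
  obtain ⟨Q, hQ⟩ := exists_relComm A N
  have hqc : ∀ x : Alg A, In Q x → ∀ y : Alg A, In N y → y * x = x * y := fun x hx y hy =>
    Subtype.ext (((hQ _).1 hx).2 _ hy)
  have hQN : ∀ x : Alg A, In Q x → In N x := fun x hx =>
    hirr x fun y hy => (hqc x hx y hy).symm
  have hQA : ∀ x : H →L[ℂ] H, x ∈ Q → x ∈ A := fun x hx => ((hQ x).1 hx).1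
  have hQi : ∀ x : Alg A, (∀ y : Alg A, In N y → x * y = y * x) → In Q x := by
    intro x hx
    refine (hQ _).2 ⟨x.2, fun y hy => ?_⟩
    exact (congrArg Subtype.val (hx ⟨y, hNA y hy⟩ hy)).symm
  -- first identity
  have hid : ∀ n : Alg A, In N n → (a * star a) * n * b = (b * star a) * n * a := by
    intro n hn
    have h1 : In B (a * star a * n) := In.mul (hNB' _ hl) (hNB' _ hn)
    have h2 : In B (star a * n * a) := hNB' _ (hr n hn)
    have h3 : (a * star a) * n * b - (b * star a) * n * a =
        (a - b) * (star a * n * a) - (a * star a * n) * (a - b) := by noncomm_ring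
    have h4 : In B ((a * star a) * n * b - (b * star a) * n * a) := by
      refine In.sub (In.mul h1 hb) ?_
      have h5 : b * star a * n * a = b * (star a * n * a) := by noncomm_ring
      rw [h5]
      exact In.mul hb h2
    refine sub_eq_zero.1 (eq_zero_of_perp hτ h4 ?_)
    rw [h3]
    exact perp_sub (perp_mul_right hp h2) (perp_mul_left hτ hp h1)
  obtain ⟨T, hT, hTp⟩ := exists_condexp hQA hτ (a * star a)
  obtain ⟨S, hS, hSp⟩ := exists_condexp hQA hτ (b * star a)
  have hk : ∀ k : Alg A, In N k → T * k * b = S * k * a := fun k hk =>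
    averaged hτ hNA hQ hid hT hS hTp hSp k hk
  have hTs : star T = T := by
    refine (sub_eq_zero.1 (eq_zero_of_perp hτ (In.sub hT (In.star hT)) ?_)).symm
    have h1 : T - star T = star (a * star a - T) - (a * star a - T) := by
      rw [star_sub, star_mul, star_star]
      noncomm_ring
    rw [h1]
    exact perp_sub (hTp.star hτ) hTp
  have hTN := hQN T hT
  have hSN := hQN S hS
  -- the support of `T`
  obtain ⟨s, hs⟩ := exists_supp hNA {i : Alg A | ∃ x : Alg A, In N x ∧ i = x * T} (by
    rintro i ⟨x, hx, rfl⟩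
    exact hx.mul hTN) (by
    rintro y hy i ⟨x, hx, rfl⟩
    exact ⟨y * x, hy.mul hx, (mul_assoc _ _ _).symm⟩)
  have hsT : s * T = T := hs.left _ ⟨1, In.one, (one_mul T).symm⟩
  have hskill : ∀ y : Alg A, T * y = 0 → s * y = 0 := by
    intro y hy
    refine hs.kill_left ?_
    rintro i ⟨x, hx, rfl⟩
    rw [star_mul, hTs, ← hqc T hT _ hx.star, mul_assoc, hy, mul_zero]
  have hsQ : In Q s := hQi s fun y hy => hs.comm y hy
  -- `s a = a`
  have hsa : s * a = a := by
    have h1 : τ ((1 - s) * (a * star a)) = 0 := by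
      have h2 : In Q (1 - s) := In.one.sub hsQ
      have h3 := hTp _ h2
      rw [sub_mul, map_sub, sub_eq_zero] at h3
      rw [hτ.tracial, h3, mul_sub, mul_one, ← hs.comm T hTN, hsT, sub_self, map_zero]
    have h2 : star (star ((1 - s) * a)) * star ((1 - s) * a) =
        (1 - s) * (a * star a) := by
      rw [star_star, star_mul, star_sub, star_one, hs.star_eq]
      have h3 := hs.comm _ hl
      calc (1 - s) * a * (star a * (1 - s)) = (1 - s) * (a * star a) -
          (a * star a * s - s * (a * star a * s)) := by noncomm_ring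
        _ = (1 - s) * (a * star a) := by
          rw [← h3, ← mul_assoc s s, hs.idem, sub_self, sub_zero]
    have h3 := hτ.faithful (star ((1 - s) * a)) (by rw [h2, h1])
    have h4 := star_eq_zero.1 h3
    rw [sub_mul, one_mul, sub_eq_zero] at h4
    exact h4.symm
  have hsb : s * b = b := by
    have h1 : In B ((1 - s) * b) := In.mul (In.one.sub (hNB' _ hs.mem)) hb
    have h2 : Perp A B τ ((1 - s) * b) := by
      have h3 : (1 - s) * b = -1 * ((1 - s) * (a - b)) := by
        rw [mul_sub (1 - s), sub_mul 1 s a, hsa]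
        noncomm_ring
      rw [h3]
      exact perp_mul_left hτ (perp_mul_left hτ hp (In.one.sub (hNB' _ hs.mem)))
        (neg_mem (one_mem B))
    have h3 := eq_zero_of_perp hτ h1 h2
    rw [sub_mul, one_mul, sub_eq_zero] at h3
    exact h3.symm
  have hTb : T * b = S * a := by
    have h1 := hk 1 In.one
    rw [mul_one, mul_one] at h1
    exact h1
  have hbT : star b * T = star a * star S := by
    have h1 := congrArg star hTb
    rw [star_mul, star_mul, hTs] at h1
    exact h1
  have hTk : ∀ k : Alg A, In N k → k * T = T * k := fun k hk => hqc T hT k hk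
  -- second identity
  have hV : ∀ k : Alg A, In N k → star b * (T * T * k) * (a - b) = 0 := by
    intro k hk'
    have h1 : star b * (T * T * k) * a = star a * (star S * T * k) * a := by
      calc star b * (T * T * k) * a = star b * T * (T * k * a) := by noncomm_ring
        _ = star a * (star S * T * k) * a := by
          rw [hbT]
          noncomm_ring
    have hm : In N (T * T * k) := (hTN.mul hTN).mul hk'
    have h2 : In B (star b * (T * T * k)) := In.mul (In.star hb) (hNB' _ hm)
    have h3 : In B (star b * (T * T * k) * (a - b)) := by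
      rw [mul_sub, h1]
      exact In.sub (hNB' _ (hr _ ((hSN.star.mul hTN).mul hk'))) (In.mul h2 hb)
    exact eq_zero_of_perp hτ h3 (perp_mul_left hτ hp h2)
  -- the support of the ideal
  obtain ⟨W, hW⟩ : ∃ W : Alg A, W = T * T * (b * star b) * (T * T) := ⟨_, rfl⟩
  have hWN : In N W := by
    have h1 : W = T * S * (a * star a) * (star S * T) := by
      calc W = T * (T * b) * (star b * T * T) := by
            rw [hW]
            noncomm_ring
        _ = T * S * (a * star a) * (star S * T) := by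
            rw [hTb, hbT]
            noncomm_ring
    rw [h1]
    exact ((hTN.mul hSN).mul hl).mul (hSN.star.mul hTN)
  have hWs : star W = W := by
    rw [hW]
    simp only [star_mul, star_star, hTs]
    noncomm_ring
  obtain ⟨z, hz⟩ := exists_supp hNA
    {i : Alg A | ∃ x y : Alg A, In N x ∧ In N y ∧ i = x * W * y} (by
    rintro i ⟨x, y, hx, hy, rfl⟩
    exact (hx.mul hWN).mul hy) (by
    rintro u hu i ⟨x, y, hx, hy, rfl⟩
    exact ⟨u * x, y, hu.mul hx, hy, by noncomm_ring⟩)
  have hzW : z * W = W := by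
    refine hz.left _ ⟨1, 1, In.one, In.one, ?_⟩
    rw [one_mul, mul_one]
  have hzb : z * b = b := by
    have h1 : ((1 - z) * (T * T * b)) * star ((1 - z) * (T * T * b)) = 0 := by
      calc ((1 - z) * (T * T * b)) * star ((1 - z) * (T * T * b)) =
          (1 - z) * W * (1 - z) := by
            rw [hW]
            simp only [star_mul, star_sub, star_one, hz.star_eq, hTs]
            noncomm_ring
        _ = 0 := by rw [sub_mul 1 z W, one_mul, hzW, sub_self, zero_mul]
    have h2 : (1 - z) * (T * T * b) = 0 := CStarRing.mul_star_self_eq_zero_iff _ |>.1 h1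
    have hzT : z * T = T * z := hz.comm T hTN
    have h3 : T * (T * ((1 - z) * b)) = 0 := by
      calc T * (T * ((1 - z) * b)) = T * (T * b) - T * (T * z) * b := by noncomm_ring
        _ = (1 - z) * (T * T * b) := by
          rw [← hzT]
          have h4 : T * (z * T) = z * (T * T) := by rw [← mul_assoc, ← hzT, mul_assoc]
          rw [h4]
          noncomm_ring
        _ = 0 := h2
    have h5 : s * (T * ((1 - z) * b)) = 0 := hskill _ h3
    rw [← mul_assoc, hsT] at h5
    have h6 := hskill _ h5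
    have h7 : s * ((1 - z) * b) = (1 - z) * b := by
      calc s * ((1 - z) * b) = s * b - s * z * b := by noncomm_ring
        _ = s * b - z * (s * b) := by rw [hs.comm z hz.mem, mul_assoc]
        _ = (1 - z) * b := by
          rw [hsb]
          noncomm_ring
    rw [h7, sub_mul, one_mul, sub_eq_zero] at h6
    exact h6.symm
  have hza : z * (a - b) = 0 := by
    refine hz.kill_left ?_
    rintro i ⟨x, y, hx, hy, rfl⟩
    have h1 := hV (star x) hx.star
    calc star (x * W * y) * (a - b) = star y * W * star x * (a - b) := by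
          rw [star_mul, star_mul, hWs]
          noncomm_ring
      _ = star y * T * T * b * (star b * (T * T * star x) * (a - b)) := by
          rw [hW]
          noncomm_ring
      _ = 0 := by rw [h1, mul_zero]
  have hzab : z * a = b := by
    rw [mul_sub, hzb, sub_eq_zero] at hza
    exact hza
  refine ⟨z, hz.mem, ?_, ?_⟩
  · rw [hzab]
    exact hb
  · rw [hzab]
    exact hp

end Pool.Agent.QFJ
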