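import Pool.Agent.QFJ.Blk
import Pool.Agent.QFI.W

/-!
# [QFJ.Model] The models for the homogeneous elements
-/

set_option autoImplicit false

namespace Pool.Agent.QFJ

open Pool.Agent.QFP Pool.Agent.QFI PRep
open scoped Matrix.Norms.L2Operator

universe u v w'

attribute [local instance] matCStar

namespace Setup

variable {𝒜 : Type u} [CStarAlgebra 𝒜] {G : Type v} [Group G] (X : Setup 𝒜 G)

/-- the letters: homogeneous elements -/
abbrev K : Type (max u v) := Σ g : G, X.V g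

/-- the value of a letter -/
def c0 (k : X.K) : 𝒜 := (k.2 : 𝒜)

/-- product of letters -/
def kmul (a b : X.K) : X.K := ⟨a.1 * b.1, ⟨(a.2 : 𝒜) * (b.2 : 𝒜), X.V_mul _ _ _ _ a.2.2 b.2.2⟩⟩

/-- adjoint of letters -/
def kst (a : X.K) : X.K := ⟨a.1⁻¹, ⟨star (a.2 : 𝒜), X.V_star _ _ a.2.2⟩⟩

/-- the unit letter -/
def kone : X.K := ⟨1, ⟨1, X.V_one⟩⟩

/-- letters on which `e 1 g⁻¹` acts as the identity -/
def isB (a : X.K) : Prop := X.e 1 a.1⁻¹ * (a.2 : 𝒜) = a.2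

/-- letters killed by `e 1 g⁻¹` -/
def isC (a : X.K) : Prop := X.e 1 a.1⁻¹ * (a.2 : 𝒜) = 0

/-- Approximate multiplicativity of a family of letters on words. -/
theorem word_close {ℰ : Type u} [CStarAlgebra ℰ] {ψ : ℰ →ₗ[ℂ] ℂ} (hψ : TrAlg ψ) (π : X.K → ℰ)
    (q : G → ℰ) (Q : Set G) (hone : π X.kone = 1) (hst : ∀ a, π (X.kst a) = star (π a))
    (hmul : ∀ a b, π a * π b = q a.1 * π (X.kmul a b)) (hn : ∀ a, ‖π a‖ ≤ ‖(a.2 : 𝒜)‖)
    {η C : ℝ} (hη : 0 ≤ η) (hC : 1 ≤ C) (hq : ∀ g ∈ Q, n2 ψ (1 - q g) ≤ η)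
    (w : List (X.K × Bool)) (hw : ∀ p ∈ w, p.1.1 ∈ Q ∧ p.1.1⁻¹ ∈ Q ∧ ‖(p.1.2 : 𝒜)‖ ≤ C) :
    ∃ a : X.K, wordEval X.c0 w = X.c0 a ∧ ‖(a.2 : 𝒜)‖ ≤ C ^ w.length ∧
      n2 ψ (wordEval π w - π a) ≤ w.length * C ^ w.length * η := by
  induction w with
  | nil =>
    refine ⟨X.kone, rfl, ?_, ?_⟩
    · show ‖(1 : 𝒜)‖ ≤ C ^ 0
      rw [pow_zero]
      exact H2x_norm _ (by rw [star_one, mul_one])
    · rw [W1_nil, hone, sub_self, hψ.n2_zero]
      simp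
  | cons p w ih =>
    obtain ⟨k, h1, h2, h3⟩ := ih fun r hr => hw r (List.mem_cons_of_mem _ hr)
    have hp := hw p List.mem_cons_self
    -- the new letter
    obtain ⟨a, ha1, ha2, haQ, haC⟩ : ∃ a : X.K, wordEval X.c0 (p :: w) = X.c0 a * X.c0 k ∧
        wordEval π (p :: w) = π a * wordEval π w ∧ a.1 ∈ Q ∧ ‖(a.2 : 𝒜)‖ ≤ C := by
      obtain ⟨a, b⟩ := p
      cases b
      · refine ⟨a, ?_, ?_, hp.1, hp.2.2⟩
        · rw [W1_cons, h1]
          rfl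
        · rw [W1_cons]
          rfl
      · refine ⟨X.kst a, ?_, ?_, hp.2.1, ?_⟩
        · rw [W1_cons, h1]
          rfl
        · rw [W1_cons, hst]
          rfl
        · show ‖star (a.2 : 𝒜)‖ ≤ C
          rw [norm_star]
          exact hp.2.2
    have hk0 : 0 ≤ ‖(k.2 : 𝒜)‖ := norm_nonneg _
    have hC0 : 0 ≤ C := zero_le_one.trans hC
    have hn2 : ‖((X.kmul a k).2 : 𝒜)‖ ≤ C ^ (w.length + 1) := by
      show ‖(a.2 : 𝒜) * (k.2 : 𝒜)‖ ≤ _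
      refine (norm_mul_le _ _).trans ?_
      rw [pow_succ']
      exact mul_le_mul haC h2 hk0 hC0
    refine ⟨X.kmul a k, ha1, by rw [List.length_cons]; exact hn2, ?_⟩
    have e : wordEval π (p :: w) - π (X.kmul a k) =
        π a * (wordEval π w - π k) - (1 - q a.1) * π (X.kmul a k) := by
      rw [ha2, mul_sub, hmul, sub_mul, one_mul]
      abel
    rw [e, List.length_cons]
    refine (hψ.n2_sub_le _ 0 _).trans ?_
    rw [sub_zero, zero_sub, hψ.n2_neg]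
    have h4 : n2 ψ (π a * (wordEval π w - π k)) ≤ C * (w.length * C ^ w.length * η) :=
      (hψ.n2_mul_left _ _).trans (mul_le_mul ((hn a).trans haC) h3 (n2_nonneg _ _) hC0)
    have h5 : n2 ψ ((1 - q a.1) * π (X.kmul a k)) ≤ η * C ^ (w.length + 1) :=
      (hψ.n2_mul_right _ _).trans (mul_le_mul (hq _ haQ) ((hn _).trans hn2) (norm_nonneg _) hη)
    calc _ ≤ C * (w.length * C ^ w.length * η) + η * C ^ (w.length + 1) := add_le_add h4 h5
      _ = _ := by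
        push_cast
        ring

/-- The models for the letters. -/
theorem model {τ : 𝒜 →ₗ[ℂ] ℂ} (hτ : TrAlg τ) (hM : MicroEmb τ)
    (hτu : ∀ g a, g ≠ 1 → a ∈ X.V g → τ a = 0) (hL : FolnerReps G)
    (F : Finset X.K) (m : ℕ) (ε : ℝ) (hε : 0 < ε) :
    Model.{u, max u v} (fun a : X.K => ‖(a.2 : 𝒜)‖) (fun w => τ (wordEval X.c0 w)) X.isB X.isC F m
      ε := by
  classical
  -- the number of copies
  obtain ⟨Cst, hC1, hC2⟩ : ∃ Cst : ℝ, 1 ≤ Cst ∧ ∀ a ∈ F, ‖(a.2 : 𝒜)‖ ≤ Cst := by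
    refine ⟨1 + ∑ a ∈ F, ‖(a.2 : 𝒜)‖, ?_, ?_⟩
    · have : 0 ≤ ∑ a ∈ F, ‖(a.2 : 𝒜)‖ := Finset.sum_nonneg fun a _ => norm_nonneg _
      linarith
    · intro a ha
      have : ‖(a.2 : 𝒜)‖ ≤ ∑ a ∈ F, ‖(a.2 : 𝒜)‖ :=
        Finset.single_le_sum (f := fun a : X.K => ‖(a.2 : 𝒜)‖) (fun a _ => norm_nonneg _) ha
      linarith
  have hC0 : 0 < Cst := lt_of_lt_of_le one_pos hC1
  obtain ⟨n0, hn0⟩ := exists_nat_gt ((Cst / ε) ^ 2)
  obtain ⟨n, hn, hnε⟩ : ∃ n : ℕ, 0 < n ∧ (Cst / ε) ^ 2 < n := by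
    refine ⟨n0 + 1, Nat.succ_pos _, ?_⟩
    push_cast
    linarith
  -- the Følner set
  obtain ⟨η, hη0, hη⟩ : ∃ η : ℝ, 0 < η ∧ (m : ℝ) * Cst ^ m * η < ε := by
    have h0 : 0 ≤ (m : ℝ) * Cst ^ m := by positivity
    refine ⟨ε / (m * Cst ^ m + 1), by positivity, ?_⟩
    rw [mul_div_assoc', div_lt_iff₀ (by positivity)]
    nlinarith
  obtain ⟨T0, hT0⟩ : ∃ T0 : Finset G, T0 = F.image Sigma.fst := ⟨_, rfl⟩
  have hT0' : ∀ a ∈ F, a.1 ∈ T0 := fun a ha => by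
    rw [hT0]
    exact Finset.mem_image_of_mem _ ha
  obtain ⟨S, φ, hφ, k, hk, t, ht, hbad⟩ := hL (T0 ∪ T0.image (·⁻¹)) (η ^ 2) (by positivity)
  have iK : Nonempty (Fin k) := ⟨⟨0, hk⟩⟩
  -- the window
  let P : Finset G := Finset.univ.image t ∪
    (T0 ×ˢ (Finset.univ : Finset (Fin k))).image fun p => p.1 * t p.2
  let T : Finset (G × FreeGroup S) :=
    (T0 ×ˢ (Finset.univ : Finset (Fin k × Fin k))).image fun p => (t p.2.1,
      if h : ∃ f, φ f = (t p.2.1)⁻¹ * p.1 * t p.2.2 then h.choose else 1)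
  obtain ⟨D, i1, i2, i3, θ, v, hθ1, hθm, hθu, hθs, hθsh, hθtr, hvs, hvv, hvsh, hmove, hfix,
    havg⟩ := exists_theta X hτ hτu φ P T n hn
  have hPt : ∀ a, t a ∈ P := fun a =>
    Finset.mem_union_left _ (Finset.mem_image_of_mem _ (Finset.mem_univ a))
  have hPg : ∀ g ∈ T0, ∀ a, g * t a ∈ P := fun g hg a =>
    Finset.mem_union_right _ (Finset.mem_image.2 ⟨(g, a), Finset.mem_product.2
      ⟨hg, Finset.mem_univ _⟩, rfl⟩)
  have hvN : ∀ s h k', ∀ x ∈ X.N, v s h k' * jmap D x = jmap D x * v s h k' := by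
    intro s h k' x hx
    have h1 := hvsh s h 1 x hx k'
    rw [inv_one, mul_one] at h1
    exact h1.symm
  have R : PRep X φ.range (jmap D) (lam φ θ) := prep_lam hφ θ (jmap D) hθ1 hθm hθs hθsh
  have hψ0 : TrAlg (mtr D τ) := mtr_trAlg hτ
  have hψ : TrAlg (mtr (Fin k) (mtr D τ)) := mtr_trAlg hψ0
  let Λ : G → G → CStarMatrix D D 𝒜 := lam φ θ
  let Y : 𝒜 → CStarMatrix (Fin k) (Fin k) (CStarMatrix D D 𝒜) := fun a =>
    jmap (Fin k) (jmap D a)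
  let W : G → CStarMatrix (Fin k) (Fin k) (CStarMatrix D D 𝒜) := Wm Λ t
  let dg : (Fin k → CStarMatrix D D 𝒜) →⋆ₐ[ℂ] CStarMatrix (Fin k) (Fin k) (CStarMatrix D D 𝒜) :=
    dmap (Fin k) (CStarMatrix D D 𝒜)
  let q : G → CStarMatrix (Fin k) (Fin k) (CStarMatrix D D 𝒜) := fun g =>
    dg (good (CStarMatrix D D 𝒜) φ.range t g)
  let V : Fin n → CStarMatrix (Fin k) (Fin k) (CStarMatrix D D 𝒜) := fun s =>
    dg fun a => v s (t a) (t a)⁻¹
  have hYm : ∀ a b, Y (a * b) = Y a * Y b := by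
    intro a b
    show jmap (Fin k) (jmap D (a * b)) = jmap (Fin k) (jmap D a) * jmap (Fin k) (jmap D b)
    rw [map_mul, map_mul]
  have hYd : ∀ a, Y a = dg fun _ => jmap D a := fun a => rfl
  have hV1 : ∀ s, star (V s) = V s := by
    intro s
    show star (dg fun a => v s (t a) (t a)⁻¹) = dg fun a => v s (t a) (t a)⁻¹
    rw [← map_star]
    congr 1
    funext a
    exact hvs s _ _
  have hV2 : ∀ s, V s * V s = 1 := by
    intro s
    show (dg fun a => v s (t a) (t a)⁻¹) * (dg fun a => v s (t a) (t a)⁻¹) = 1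
    rw [← map_mul, ← map_one dg]
    congr 1
    funext a
    exact hvv s _ _
  have hVq : ∀ s g, V s * q g = q g * V s := by
    intro s g
    show dg (fun a => v s (t a) (t a)⁻¹) * dg (good (CStarMatrix D D 𝒜) φ.range t g) =
      dg (good (CStarMatrix D D 𝒜) φ.range t g) * dg (fun a => v s (t a) (t a)⁻¹)
    rw [← map_mul, ← map_mul]
    congr 1
    funext a
    show v s (t a) (t a)⁻¹ * (good (CStarMatrix D D 𝒜) φ.range t g a) =
      (good (CStarMatrix D D 𝒜) φ.range t g a) * v s (t a) (t a)⁻¹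
    unfold good
    split_ifs
    · rw [mul_one, one_mul]
    · rw [mul_zero, zero_mul]
  have hYV : ∀ s g a, a ∈ X.V g → Y a * V s = (dg fun c => v s (t c) ((t c)⁻¹ * g⁻¹)) * Y a := by
    intro s g a ha
    show dg (fun _ => jmap D a) * dg (fun c => v s (t c) (t c)⁻¹) =
      dg (fun c => v s (t c) ((t c)⁻¹ * g⁻¹)) * dg (fun _ => jmap D a)
    rw [← map_mul, ← map_mul]
    congr 1
    funext c
    exact hvsh s _ g a ha _
  have hVW : ∀ s, ∀ g ∈ T0, V s * W g = W g * dg fun a => v s (g * t a) ((t a)⁻¹ * g⁻¹) := by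
    intro s g hg
    refine CStarMatrix.ext fun b a => ?_
    show (dmap (Fin k) (CStarMatrix D D 𝒜) (fun a => v s (t a) (t a)⁻¹) * Wm Λ t g) b a =
      (Wm Λ t g * dmap (Fin k) (CStarMatrix D D 𝒜) fun a =>
        v s (g * t a) ((t a)⁻¹ * g⁻¹)) b a
    rw [mul_dmap_apply, dmap_mul_apply, Wm_apply]
    by_cases h : ∃ f, φ f = (t b)⁻¹ * g * t a
    · obtain ⟨f, hf⟩ := h
      have h1 : Λ ((t b)⁻¹ * g * t a) (t b)⁻¹ = θ f (t b)⁻¹ := by
        rw [← hf]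
        exact lam_map hφ θ f _
      have h2 := hmove (t b, f) (Finset.mem_image.2 ⟨(g, (b, a)), Finset.mem_product.2
        ⟨hg, Finset.mem_univ _⟩, by
          have h : ∃ f, φ f = (t b)⁻¹ * g * t a := ⟨f, hf⟩
          show (t b, if h : ∃ f, φ f = (t b)⁻¹ * g * t a then h.choose else 1) = (t b, f)
          rw [dif_pos h]
          congr 1
          exact hφ (h.choose_spec.trans hf.symm)⟩) s (t b)⁻¹
      have h3 : t b * φ f = g * t a := by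
        rw [hf]
        group
      have h4 : (φ f)⁻¹ * (t b)⁻¹ = (t a)⁻¹ * g⁻¹ := by
        rw [hf]
        group
      rw [h1]
      show v s (t b) (t b)⁻¹ * θ f (t b)⁻¹ = θ f (t b)⁻¹ * v s (g * t a) ((t a)⁻¹ * g⁻¹)
      rw [← h3, ← h4]
      exact h2
    · have h1 : Λ ((t b)⁻¹ * g * t a) (t b)⁻¹ = 0 := lam_not θ _ fun ⟨f, hf⟩ => h ⟨f, hf⟩
      rw [h1, mul_zero, zero_mul]
  let π : Fin n → X.K → CStarMatrix (Fin k) (Fin k) (CStarMatrix D D 𝒜) := fun s a =>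
    V s * (W a.1 * Y (a.2 : 𝒜)) * V s
  have hπ : ∀ s a, π s a = V s * (W a.1 * Y (a.2 : 𝒜)) * V s := fun s a => rfl
  have πone : ∀ s, π s X.kone = 1 := by
    intro s
    show V s * (W 1 * Y 1) * V s = 1
    have h1 : W 1 = 1 := R.Wm_one t ht
    have h2 : Y 1 = 1 := by
      show jmap (Fin k) (jmap D (1 : 𝒜)) = 1
      rw [map_one, map_one]
    rw [h1, h2, mul_one, mul_one, hV2]
  have πst : ∀ s a, π s (X.kst a) = star (π s a) := by
    intro s a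
    rw [hπ, hπ, star_mul, star_mul, hV1, mul_assoc]
    congr 2
    exact (R.Wm_star t a.1 (a.2 : 𝒜) a.2.2).symm
  have πmul : ∀ s a b, π s a * π s b = q a.1 * π s (X.kmul a b) := by
    intro s a b
    have h1 : W a.1 * Y (a.2 : 𝒜) * W b.1 = q a.1 * W (a.1 * b.1) * Y (a.2 : 𝒜) :=
      R.Wm_mul t ht a.1 b.1 _ a.2.2
    calc π s a * π s b = V s * (W a.1 * Y (a.2 : 𝒜)) * (V s * V s) * (W b.1 * Y (b.2 : 𝒜)) *
            V s := by
          rw [hπ, hπ]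
          noncomm_ring
      _ = V s * ((W a.1 * Y (a.2 : 𝒜) * W b.1) * Y (b.2 : 𝒜)) * V s := by
          rw [hV2]
          noncomm_ring
      _ = (V s * q a.1) * (W (a.1 * b.1) * (Y (a.2 : 𝒜) * Y (b.2 : 𝒜))) * V s := by
          rw [h1]
          noncomm_ring
      _ = q a.1 * (V s * (W (a.1 * b.1) * Y ((a.2 : 𝒜) * (b.2 : 𝒜))) * V s) := by
          rw [hVq, hYm]
          noncomm_ring
      _ = q a.1 * π s (X.kmul a b) := rfl
  have hVn : ∀ s, ‖V s‖ ≤ 1 := fun s => H2x_norm _ (by rw [hV1, hV2])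
  have hWn : ∀ g, ‖W g‖ ≤ 1 := fun g => R.norm_Wm_le t ht g
  have hYn : ∀ y, ‖Y y‖ ≤ ‖y‖ := by
    intro y
    have h1 : ‖jmap D y‖ ≤ ‖y‖ := NonUnitalStarAlgHom.norm_apply_le (jmap D) y
    have h2 : ‖jmap (Fin k) (jmap D y)‖ ≤ ‖jmap D y‖ :=
      NonUnitalStarAlgHom.norm_apply_le (jmap (Fin k)) (jmap D y)
    exact h2.trans h1
  have πn : ∀ s a, ‖π s a‖ ≤ ‖(a.2 : 𝒜)‖ := by
    intro s a
    have h1 := hWn a.1
    have h2 := hYn (a.2 : 𝒜)
    have h3 := hVn s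
    calc ‖π s a‖ ≤ ‖V s‖ * (‖W a.1‖ * ‖Y (a.2 : 𝒜)‖) * ‖V s‖ := by
          refine (norm_mul_le _ _).trans (mul_le_mul_of_nonneg_right ?_ (norm_nonneg _))
          refine (norm_mul_le _ _).trans (mul_le_mul_of_nonneg_left ?_ (norm_nonneg _))
          exact norm_mul_le _ _
      _ ≤ 1 * (1 * ‖(a.2 : 𝒜)‖) * 1 := by gcongr
      _ = ‖(a.2 : 𝒜)‖ := by ring
  -- the traces of the letters
  have πtr : ∀ s a, mtr (Fin k) (mtr D τ) (π s a) = τ (X.c0 a) := by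
    intro s a
    rw [hπ, hψ.comm, ← mul_assoc, hV2, one_mul]
    have h0 : mtr (Fin k) (mtr D τ) (W a.1 * Y (a.2 : 𝒜)) = (Fintype.card (Fin k) : ℂ)⁻¹ *
        ∑ c, mtr D τ (Λ ((t c)⁻¹ * a.1 * t c) (t c)⁻¹ * jmap D (a.2 : 𝒜)) := by
      rw [mtr_apply]
      congr 1
      refine Finset.sum_congr rfl fun c _ => ?_
      show mtr D τ ((Wm Λ t a.1 * jmap (Fin k) (jmap D (a.2 : 𝒜))) c c) = _
      rw [mul_jmap_apply, Wm_apply]
    rw [h0]
    have hk' : (Fintype.card (Fin k) : ℂ) ≠ 0 := by exact_mod_cast Fintype.card_ne_zero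
    by_cases ha : a.1 = 1
    · have h4 : ∀ c, mtr D τ (Λ ((t c)⁻¹ * a.1 * t c) (t c)⁻¹ * jmap D (a.2 : 𝒜)) =
          τ (a.2 : 𝒜) := by
        intro c
        have h5 : Λ ((t c)⁻¹ * a.1 * t c) (t c)⁻¹ = 1 := by
          rw [ha, mul_one, inv_mul_cancel]
          exact R.one _
        have h6 : jmap D (a.2 : 𝒜) = jmap D (a.2 : 𝒜) * smap D 𝒜 1 := by
          rw [map_one, mul_one]
        rw [h5, one_mul, h6, mtr_jmap_smap,
          (ntr_trAlg : TrAlg (ntr : Matrix D D ℂ →ₗ[ℂ] ℂ)).one, mul_one]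
      rw [Finset.sum_congr rfl fun c _ => h4 c, Finset.sum_const, Finset.card_univ,
        nsmul_eq_mul, inv_mul_cancel_left₀ hk']
      rfl
    · have h4 : ∀ c, mtr D τ (Λ ((t c)⁻¹ * a.1 * t c) (t c)⁻¹ * jmap D (a.2 : 𝒜)) = 0 := by
        intro c
        by_cases h : ∃ f, φ f = (t c)⁻¹ * a.1 * t c
        · obtain ⟨f, hf⟩ := h
          have h1 : Λ ((t c)⁻¹ * a.1 * t c) (t c)⁻¹ = θ f (t c)⁻¹ := by
            rw [← hf]
            exact lam_map hφ θ f _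
          rw [h1]
          exact hθtr f _ a.1 _ ha a.2.2
        · have h1 : Λ ((t c)⁻¹ * a.1 * t c) (t c)⁻¹ = 0 := lam_not θ _ fun ⟨f, hf⟩ => h ⟨f, hf⟩
          rw [h1, zero_mul, map_zero]
      rw [Finset.sum_congr rfl fun c _ => h4 c, Finset.sum_const_zero, mul_zero]
      exact (hτu a.1 _ ha a.2.2).symm
  -- the projections `1 - q g` are small
  have hq : ∀ g ∈ (T0 ∪ T0.image (·⁻¹) : Finset G), n2 (mtr (Fin k) (mtr D τ)) (1 - q g) ≤ η := by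
    intro g hg
    have h1 : (1 : CStarMatrix (Fin k) (Fin k) (CStarMatrix D D 𝒜)) - q g =
        dg fun c => if ∃ b, (t c)⁻¹ * g * t b ∈ φ.range then 0 else 1 := by
      show 1 - dg (good (CStarMatrix D D 𝒜) φ.range t g) = _
      rw [← map_one dg, ← map_sub]
      congr 1
      funext c
      show 1 - good (CStarMatrix D D 𝒜) φ.range t g c = _
      unfold good
      split_ifs
      · rw [sub_self]
      · rw [sub_zero]
    have h2 : ∀ c : Fin k, n2 (mtr D τ) (if ∃ b, (t c)⁻¹ * g * t b ∈ φ.range then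
        (0 : CStarMatrix D D 𝒜) else 1) ^ 2 =
        if ¬ ∃ b, (t c)⁻¹ * g * t b ∈ φ.range then (1 : ℝ) else 0 := by
      intro c
      by_cases hc : ∃ b, (t c)⁻¹ * g * t b ∈ φ.range
      · rw [if_pos hc, if_neg (not_not.2 hc), hψ0.n2_zero]
        norm_num
      · rw [if_neg hc, if_pos hc, hψ0.n2_sq, star_one, mul_one, hψ0.one, Complex.one_re]
    have h3 : ∑ c : Fin k, (if ¬ ∃ b, (t c)⁻¹ * g * t b ∈ φ.range then (1 : ℝ) else 0) =
        (Nat.card {c : Fin k // ¬ ∃ b, (t c)⁻¹ * g * t b ∈ φ.range} : ℝ) := by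
      rw [Nat.card_eq_fintype_card, Fintype.card_subtype, Finset.sum_boole]
    have h4 := hbad g hg
    have h5 : n2 (mtr (Fin k) (mtr D τ)) (1 - q g) ^ 2 ≤ η ^ 2 := by
      rw [h1]
      show n2 (mtr (Fin k) (mtr D τ)) (dmap (Fin k) (CStarMatrix D D 𝒜) _) ^ 2 ≤ _
      rw [n2_dmap_sq hψ0, Finset.sum_congr rfl fun c _ => h2 c, h3, Fintype.card_fin]
      have hk' : (0 : ℝ) < k := by exact_mod_cast hk
      rw [inv_mul_le_iff₀ hk', mul_comm (k : ℝ)]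
      exact h4
    exact le_of_sq_le_sq h5 hη0.le
  -- the letters of the window
  have hform : ∀ s, ∀ b : X.K, b.1 ∈ T0 → π s b = W b.1 *
      (dg fun a => v s (b.1 * t a) ((t a)⁻¹ * b.1⁻¹) * v s (t a) ((t a)⁻¹ * b.1⁻¹)) *
        Y (b.2 : 𝒜) := by
    intro s b hg
    calc π s b = (V s * W b.1) * (Y (b.2 : 𝒜) * V s) := by
          rw [hπ]
          noncomm_ring
      _ = (W b.1 * dg fun a => v s (b.1 * t a) ((t a)⁻¹ * b.1⁻¹)) *
            ((dg fun a => v s (t a) ((t a)⁻¹ * b.1⁻¹)) * Y (b.2 : 𝒜)) := by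
          rw [hVW s _ hg, hYV s b.1 _ b.2.2]
      _ = W b.1 * ((dg fun a => v s (b.1 * t a) ((t a)⁻¹ * b.1⁻¹)) *
            (dg fun a => v s (t a) ((t a)⁻¹ * b.1⁻¹))) * Y (b.2 : 𝒜) := by noncomm_ring
      _ = _ := by
          congr 2
          exact (map_mul dg (fun a => v s (b.1 * t a) ((t a)⁻¹ * b.1⁻¹))
            (fun a => v s (t a) ((t a)⁻¹ * b.1⁻¹))).symm
  have hpos1 : ∀ (g : G) (a : Fin k), g * t a * ((t a)⁻¹ * g⁻¹) = 1 := fun g a => by group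
  have hpos2 : ∀ (g : G) (a : Fin k), t a * ((t a)⁻¹ * g⁻¹) = g⁻¹ := fun g a => by group
  refine ⟨CStarMatrix (Fin k) (Fin k) (CStarMatrix D D 𝒜), inferInstance,
    mtr (Fin k) (mtr D τ), hψ, mtr_microEmb hψ0 (mtr_microEmb hτ hM), n, hn, π, πn, ?_, ?_, ?_⟩
  · intro s w hw hwm
    obtain ⟨a, h1, h2, h3⟩ := X.word_close hψ (π s) q
      ((T0 ∪ T0.image (·⁻¹) : Finset G) : Set G) (πone s) (πst s) (πmul s) (πn s) hη0.le hC1
      (fun g hg => hq g hg) w (fun p hp => by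
        have hpF := hT0' p.1 (hw p hp)
        exact ⟨Finset.mem_union_left _ hpF,
          Finset.mem_union_right _ (Finset.mem_image_of_mem _ hpF), hC2 _ (hw p hp)⟩)
    show ‖mtr (Fin k) (mtr D τ) (wordEval (π s) w) - τ (wordEval X.c0 w)‖ < ε
    rw [h1, ← πtr s a, ← map_sub]
    refine lt_of_le_of_lt ((hψ.norm_le_n2 _).trans h3) (lt_of_le_of_lt ?_ hη)
    have h4 : (w.length : ℝ) ≤ m := by exact_mod_cast hwm
    have h5 : Cst ^ w.length ≤ Cst ^ m := pow_le_pow_right₀ hC1 hwm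
    gcongr
  · intro b hb hbB s s'
    have hg := hT0' b hb
    have h0 : Y (b.2 : 𝒜) = Y (X.e 1 b.1⁻¹) * Y (b.2 : 𝒜) := by
      rw [← hYm]
      exact congrArg Y hbB.symm
    have h1 : ∀ s, π s b = W b.1 * Y (b.2 : 𝒜) := by
      intro s
      have h2 : (dg fun a => v s (b.1 * t a) ((t a)⁻¹ * b.1⁻¹) *
          v s (t a) ((t a)⁻¹ * b.1⁻¹)) * Y (X.e 1 b.1⁻¹) = Y (X.e 1 b.1⁻¹) := by
        show (dg fun a => v s (b.1 * t a) ((t a)⁻¹ * b.1⁻¹) *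
          v s (t a) ((t a)⁻¹ * b.1⁻¹)) * (dg fun _ => jmap D (X.e 1 b.1⁻¹)) =
            dg fun _ => jmap D (X.e 1 b.1⁻¹)
        rw [← map_mul]
        congr 1
        funext a
        show v s (b.1 * t a) ((t a)⁻¹ * b.1⁻¹) * v s (t a) ((t a)⁻¹ * b.1⁻¹) *
          jmap D (X.e 1 b.1⁻¹) = _
        have h3 := hfix _ (hPg _ hg a) _ (hPt a) s ((t a)⁻¹ * b.1⁻¹)
        rw [hpos1, hpos2] at h3
        have h4 : X.e 1 b.1⁻¹ ∈ X.N := X.e_mem _ _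
        rw [mul_assoc, hvN s _ _ _ h4, ← h3, ← mul_assoc, hvN s _ _ _ h4, mul_assoc, hvv, mul_one]
      calc π s b = W b.1 * (dg fun a => v s (b.1 * t a) ((t a)⁻¹ * b.1⁻¹) *
            v s (t a) ((t a)⁻¹ * b.1⁻¹)) * Y (b.2 : 𝒜) := hform s b hg
        _ = W b.1 * ((dg fun a => v s (b.1 * t a) ((t a)⁻¹ * b.1⁻¹) *
            v s (t a) ((t a)⁻¹ * b.1⁻¹)) * Y (X.e 1 b.1⁻¹)) * Y (b.2 : 𝒜) := by
            rw [mul_assoc, mul_assoc, mul_assoc, ← h0]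
        _ = W b.1 * (Y (X.e 1 b.1⁻¹) * Y (b.2 : 𝒜)) := by rw [h2, mul_assoc]
        _ = _ := by rw [← h0]
    rw [h1, h1]
  · intro b hb hbC
    have hg := hT0' b hb
    have h0 : Y (b.2 : 𝒜) = Y (1 - X.e 1 b.1⁻¹) * Y (b.2 : 𝒜) := by
      rw [← hYm]
      congr 1
      have h3 : X.e 1 b.1⁻¹ * (b.2 : 𝒜) = 0 := hbC
      rw [sub_mul, one_mul, h3, sub_zero]
    have h1 : (n : ℂ)⁻¹ • ∑ s, π s b = W b.1 *
        (dg fun a => jmap D (1 - X.e 1 b.1⁻¹) *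
          ((n : ℂ)⁻¹ • ∑ s, v s (b.1 * t a) ((t a)⁻¹ * b.1⁻¹) *
            v s (t a) ((t a)⁻¹ * b.1⁻¹))) * Y (b.2 : 𝒜) := by
      have h2 : ∀ s, π s b = W b.1 * (dg fun a => jmap D (1 - X.e 1 b.1⁻¹) *
          (v s (b.1 * t a) ((t a)⁻¹ * b.1⁻¹) * v s (t a) ((t a)⁻¹ * b.1⁻¹))) *
            Y (b.2 : 𝒜) := by
        intro s
        have h3 : (dg fun a => v s (b.1 * t a) ((t a)⁻¹ * b.1⁻¹) *
            v s (t a) ((t a)⁻¹ * b.1⁻¹)) * Y (1 - X.e 1 b.1⁻¹) =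
            dg fun a => jmap D (1 - X.e 1 b.1⁻¹) *
              (v s (b.1 * t a) ((t a)⁻¹ * b.1⁻¹) * v s (t a) ((t a)⁻¹ * b.1⁻¹)) := by
          show (dg fun a => v s (b.1 * t a) ((t a)⁻¹ * b.1⁻¹) *
            v s (t a) ((t a)⁻¹ * b.1⁻¹)) * (dg fun _ => jmap D (1 - X.e 1 b.1⁻¹)) = _
          rw [← map_mul]
          congr 1
          funext a
          show v s (b.1 * t a) ((t a)⁻¹ * b.1⁻¹) * v s (t a) ((t a)⁻¹ * b.1⁻¹) *
            jmap D (1 - X.e 1 b.1⁻¹) = _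
          have h4 : 1 - X.e 1 b.1⁻¹ ∈ X.N := sub_mem (one_mem _) (X.e_mem _ _)
          rw [mul_assoc, hvN s _ _ _ h4, ← mul_assoc, hvN s _ _ _ h4, mul_assoc]
        calc π s b = W b.1 * (dg fun a => v s (b.1 * t a) ((t a)⁻¹ * b.1⁻¹) *
              v s (t a) ((t a)⁻¹ * b.1⁻¹)) * Y (b.2 : 𝒜) := hform s b hg
          _ = W b.1 * ((dg fun a => v s (b.1 * t a) ((t a)⁻¹ * b.1⁻¹) *
              v s (t a) ((t a)⁻¹ * b.1⁻¹)) * Y (1 - X.e 1 b.1⁻¹)) * Y (b.2 : 𝒜) := by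
              rw [mul_assoc, mul_assoc, mul_assoc, ← h0]
          _ = _ := by rw [h3]
      rw [Finset.sum_congr rfl fun s _ => h2 s, ← Finset.sum_mul, ← Finset.mul_sum,
        ← map_sum, ← smul_mul_assoc, ← mul_smul_comm, ← map_smul]
      congr 3
      funext a
      rw [Pi.smul_apply, Finset.sum_apply, ← Finset.mul_sum, mul_smul_comm]
    rw [h1]
    have hn' : (0 : ℝ) < n := by exact_mod_cast hn
    obtain ⟨Z, hZ⟩ : ∃ Z, Z = dg fun a => jmap D (1 - X.e 1 b.1⁻¹) *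
          ((n : ℂ)⁻¹ • ∑ s, v s (b.1 * t a) ((t a)⁻¹ * b.1⁻¹) *
            v s (t a) ((t a)⁻¹ * b.1⁻¹)) := ⟨_, rfl⟩
    rw [← hZ]
    have h4 : n2 (mtr (Fin k) (mtr D τ)) Z ^ 2 ≤ (n : ℝ)⁻¹ := by
      rw [hZ]
      show n2 (mtr (Fin k) (mtr D τ)) (dmap (Fin k) (CStarMatrix D D 𝒜) _) ^ 2 ≤ _
      rw [n2_dmap_sq hψ0, Fintype.card_fin]
      have hk' : (0 : ℝ) < k := by exact_mod_cast hk
      rw [inv_mul_le_iff₀ hk']
      have h5 : ∀ a : Fin k, n2 (mtr D τ) (jmap D (1 - X.e 1 b.1⁻¹) *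
          ((n : ℂ)⁻¹ • ∑ s, v s (b.1 * t a) ((t a)⁻¹ * b.1⁻¹) *
            v s (t a) ((t a)⁻¹ * b.1⁻¹))) ^ 2 ≤ (n : ℝ)⁻¹ := by
        intro a
        have h6 := havg _ (hPg _ hg a) _ (hPt a) ((t a)⁻¹ * b.1⁻¹)
        rw [hpos1, hpos2] at h6
        exact h6
      refine (Finset.sum_le_sum fun a _ => h5 a).trans ?_
      rw [Finset.sum_const, Finset.card_univ, Fintype.card_fin, nsmul_eq_mul]
    have h7 : n2 (mtr (Fin k) (mtr D τ)) (W b.1 * Z * Y (b.2 : 𝒜)) ≤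
        n2 (mtr (Fin k) (mtr D τ)) Z * Cst := by
      refine (hψ.n2_mul_right _ _).trans ?_
      refine mul_le_mul ?_ ((hYn _).trans (hC2 b hb)) (norm_nonneg _) (n2_nonneg _ _)
      refine (hψ.n2_mul_left _ _).trans ?_
      calc _ ≤ 1 * n2 (mtr (Fin k) (mtr D τ)) Z :=
            mul_le_mul_of_nonneg_right (hWn _) (n2_nonneg _ _)
        _ = _ := one_mul _
    refine lt_of_le_of_lt h7 ?_
    refine lt_of_pow_lt_pow_left₀ 2 hε.le ?_
    rw [mul_pow]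
    refine lt_of_le_of_lt (mul_le_mul_of_nonneg_right h4 (sq_nonneg _)) ?_
    rw [div_pow, div_lt_iff₀ (by positivity)] at hnε
    rw [inv_mul_lt_iff₀ hn']
    exact hnε

end Setup

end Pool.Agent.QFJ
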