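import Pool.Agent.QFJ.Proj
import Pool.Agent.QFJ.Model
import Pool.Agent.QFJ.Irr

/-!
# [QFJ.Grad] Graded algebras: the main theorem
-/

set_option autoImplicit false

namespace Pool.Agent.QFJ

open Pool.Agent.QFP Pool.Agent.QFI
open scoped Matrix.Norms.L2Operator

universe u v w'

variable {H : Type u} [NormedAddCommGroup H] [InnerProductSpace ℂ H] [CompleteSpace H]

/-- `A` is graded by `G`, with `N` as the component of degree `1` -/
structure IsGrad (A N : VonNeumannAlgebra H) (τ : Alg A →ₗ[ℂ] ℂ) {G : Type v} [Group G]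
    (V : G → Submodule ℂ (Alg A)) : Prop where
  one_iff : ∀ a : Alg A, a ∈ V 1 ↔ In N a
  mul : ∀ g h a b, a ∈ V g → b ∈ V h → a * b ∈ V (g * h)
  star_mem : ∀ g a, a ∈ V g → star a ∈ V g⁻¹
  trace : ∀ g a, g ≠ 1 → a ∈ V g → τ a = 0
  gen : (A : Set (H →L[ℂ] H)) ⊆ Set.centralizer (Set.centralizer
      {x | ∃ g, ∃ a ∈ V g, x = ((a : Alg A) : H →L[ℂ] H)})

section

variable {A B N : VonNeumannAlgebra H} {τ : Alg A →ₗ[ℂ] ℂ} {G : Type v} [Group G]
  {V : G → Submodule ℂ (Alg A)}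

theorem IsGrad.one (hV : IsGrad A N τ V) : (1 : Alg A) ∈ V 1 := (hV.one_iff 1).2 In.one

/-- the ideal `V h * (V (h h'⁻¹) ∩ B) * V h'` -/
def Id (B : VonNeumannAlgebra H) (V : G → Submodule ℂ (Alg A)) (h h' : G) : Set (Alg A) :=
  {i | ∃ x ∈ V h, ∃ b ∈ V (h * h'⁻¹), In B b ∧ ∃ y ∈ V h', i = star x * b * y}

theorem Id_mem (hV : IsGrad A N τ V) {h h' : G} {i : Alg A} (hi : i ∈ Id B V h h') : In N i := by
  obtain ⟨x, hx, b, hb, -, y, hy, rfl⟩ := hi
  have h1 := hV.mul _ _ _ _ (hV.mul _ _ _ _ (hV.star_mem _ _ hx) hb) hy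
  have h2 : h⁻¹ * (h * h'⁻¹) * h' = 1 := by group
  rw [h2] at h1
  exact (hV.one_iff _).1 h1

theorem Id_left (hV : IsGrad A N τ V) {h h' : G} (x : Alg A) (hx : In N x) {i : Alg A}
    (hi : i ∈ Id B V h h') : x * i ∈ Id B V h h' := by
  obtain ⟨x', hx', b, hb, hbB, y, hy, rfl⟩ := hi
  refine ⟨x' * star x, ?_, b, hb, hbB, y, hy, ?_⟩
  · have h1 := hV.mul _ _ _ _ hx' ((hV.one_iff _).2 hx.star)
    rw [mul_one] at h1
    exact h1
  · rw [star_mul, star_star]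
    noncomm_ring

theorem Id_star (hV : IsGrad A N τ V) {h h' : G} {i : Alg A} (hi : i ∈ Id B V h h') :
    star i ∈ Id B V h' h := by
  obtain ⟨x, hx, b, hb, hbB, y, hy, rfl⟩ := hi
  refine ⟨y, hy, star b, ?_, hbB.star, x, hx, ?_⟩
  · have h1 := hV.star_mem _ _ hb
    have h2 : (h * h'⁻¹)⁻¹ = h' * h⁻¹ := by group
    rw [h2] at h1
    exact h1
  · rw [star_mul, star_mul, star_star, mul_assoc]

theorem Id_mul (hNB : ∀ x : H →L[ℂ] H, x ∈ N → x ∈ B) (hV : IsGrad A N τ V) {h h' h'' : G}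
    {i i' : Alg A} (hi : i ∈ Id B V h h') (hi' : i' ∈ Id B V h' h'') :
    i * i' ∈ Id B V h h'' := by
  obtain ⟨x, hx, b, hb, hbB, y, hy, rfl⟩ := hi
  obtain ⟨x', hx', b', hb', hbB', y', hy', rfl⟩ := hi'
  have h1 := hV.mul _ _ _ _ hy (hV.star_mem _ _ hx')
  rw [mul_inv_cancel] at h1
  have h2 : In B (y * star x') := hNB _ ((hV.one_iff _).1 h1)
  refine ⟨x, hx, b * (y * star x') * b', ?_, In.mul (In.mul hbB h2) hbB', y', hy', ?_⟩
  · have h3 := hV.mul _ _ _ _ (hV.mul _ _ _ _ hb h1) hb'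
    have h4 : h * h'⁻¹ * 1 * (h' * h''⁻¹) = h * h''⁻¹ := by group
    rw [h4] at h3
    exact h3
  · noncomm_ring

theorem Id_shift (hV : IsGrad A N τ V) {h h' g : G} {i a : Alg A} (ha : a ∈ V g)
    (hi : i ∈ Id B V h h') : (a * i) * star (a * i) ∈ Id B V (h * g⁻¹) (h' * g⁻¹) := by
  obtain ⟨x, hx, b, hb, hbB, y, hy, rfl⟩ := hi
  refine ⟨x * star a, hV.mul _ _ _ _ hx (hV.star_mem _ _ ha), b, ?_, hbB,
    y * star y * star b * x * star a, ?_, ?_⟩
  · have h1 : h * g⁻¹ * (h' * g⁻¹)⁻¹ = h * h'⁻¹ := by group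
    rw [h1]
    exact hb
  · have h1 := hV.mul _ _ _ _ (hV.mul _ _ _ _ (hV.mul _ _ _ _ (hV.mul _ _ _ _ hy
      (hV.star_mem _ _ hy)) (hV.star_mem _ _ hb)) hx) (hV.star_mem _ _ ha)
    have h2 : h' * h'⁻¹ * (h * h'⁻¹)⁻¹ * h * g⁻¹ = h' * g⁻¹ := by group
    rw [h2] at h1
    exact h1
  · simp only [star_mul, star_star]
    noncomm_ring

theorem exists_e (hNA : ∀ x : H →L[ℂ] H, x ∈ N → x ∈ A) (hV : IsGrad A N τ V) (h h' : G) :
    ∃ e : Alg A, IsSupp N (Id B V h h') e :=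
  exists_supp hNA _ (fun _ hi => Id_mem hV hi) fun x hx _ hi => Id_left hV x hx hi

end

open scoped Classical in
/-- the relation given by `B` -/
noncomputable def ee {A B N : VonNeumannAlgebra H} {τ : Alg A →ₗ[ℂ] ℂ} {G : Type v} [Group G]
    {V : G → Submodule ℂ (Alg A)} (hNA : ∀ x : H →L[ℂ] H, x ∈ N → x ∈ A)
    (hV : IsGrad A N τ V) (h h' : G) : Alg A :=
  if h = h' then 1 else (exists_e (B := B) hNA hV h h').choose

section

variable {A B N : VonNeumannAlgebra H} {τ : Alg A →ₗ[ℂ] ℂ} {G : Type v} [Group G]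
  {V : G → Submodule ℂ (Alg A)} (hNA : ∀ x : H →L[ℂ] H, x ∈ N → x ∈ A)
  (hV : IsGrad A N τ V)

theorem ee_self (h : G) : ee (B := B) hNA hV h h = 1 := if_pos rfl

theorem ee_supp {h h' : G} (hh : h ≠ h') : IsSupp N (Id B V h h') (ee (B := B) hNA hV h h') := by
  unfold ee
  rw [if_neg hh]
  exact (exists_e (B := B) hNA hV h h').choose_spec

theorem ee_mem (h h' : G) : In N (ee (B := B) hNA hV h h') := by
  by_cases hh : h = h'
  · subst hh
    rw [ee_self]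
    exact In.one
  · exact (ee_supp hNA hV hh).mem

theorem ee_comm (h h' : G) (x : Alg A) (hx : In N x) :
    ee (B := B) hNA hV h h' * x = x * ee (B := B) hNA hV h h' := by
  by_cases hh : h = h'
  · subst hh
    rw [ee_self, one_mul, mul_one]
  · exact (ee_supp hNA hV hh).comm x hx

theorem ee_star (h h' : G) : star (ee (B := B) hNA hV h h') = ee (B := B) hNA hV h h' := by
  by_cases hh : h = h'
  · subst hh
    rw [ee_self, star_one]
  · exact (ee_supp hNA hV hh).star_eq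

theorem ee_idem (h h' : G) :
    ee (B := B) hNA hV h h' * ee (B := B) hNA hV h h' = ee (B := B) hNA hV h h' := by
  by_cases hh : h = h'
  · subst hh
    rw [ee_self, one_mul]
  · exact (ee_supp hNA hV hh).idem

theorem ee_symm (h h' : G) : ee (B := B) hNA hV h h' = ee (B := B) hNA hV h' h := by
  have key : ∀ h h' : G, h ≠ h' → ee (B := B) hNA hV h' h * ee (B := B) hNA hV h h' =
      ee (B := B) hNA hV h h' := by
    intro h h' hh
    have h1 := (ee_supp (B := B) hNA hV hh).kill (1 - ee (B := B) hNA hV h' h) (by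
      intro i hi
      have h2 := (ee_supp (B := B) hNA hV hh.symm).left _ (Id_star hV hi)
      have h3 := congrArg star h2
      rw [star_mul, star_star, ee_star] at h3
      rw [sub_mul, one_mul, ee_comm hNA hV _ _ i (Id_mem hV hi), h3, sub_self])
    rw [sub_mul, one_mul, sub_eq_zero] at h1
    exact h1.symm
  by_cases hh : h = h'
  · rw [hh]
  · have h1 := key h h' hh
    have h2 := key h' h (Ne.symm hh)
    rw [ee_comm hNA hV h h' _ (ee_mem hNA hV h' h)] at h2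
    rw [← h1, h2]

theorem ee_trans (hNB : ∀ x : H →L[ℂ] H, x ∈ N → x ∈ B) (h h' h'' : G) :
    ee (B := B) hNA hV h h' * ee (B := B) hNA hV h' h'' * ee (B := B) hNA hV h h'' =
      ee (B := B) hNA hV h h' * ee (B := B) hNA hV h' h'' := by
  by_cases h1 : h = h'
  · subst h1
    rw [ee_self, one_mul, ee_idem]
  by_cases h2 : h' = h''
  · subst h2
    rw [ee_self, mul_one, ee_idem]
  by_cases h3 : h = h''
  · subst h3
    rw [ee_self, mul_one]
  have h4 : ∀ i ∈ Id B V h h', (1 - ee (B := B) hNA hV h h'') * i *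
      ee (B := B) hNA hV h' h'' = 0 := by
    intro i hi
    refine (ee_supp (B := B) hNA hV h2).kill _ fun i' hi' => ?_
    have h5 := (ee_supp (B := B) hNA hV h3).left _ (Id_mul hNB hV hi hi')
    rw [mul_assoc, sub_mul, one_mul, h5, sub_self]
  have h6 : (1 - ee (B := B) hNA hV h h'') * ee (B := B) hNA hV h' h'' *
      ee (B := B) hNA hV h h' = 0 := by
    refine (ee_supp (B := B) hNA hV h1).kill _ fun i hi => ?_
    have h7 := h4 i hi
    rw [mul_assoc, ← ee_comm hNA hV h' h'' i (Id_mem hV hi), ← mul_assoc] at h7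
    exact h7
  have h8 := ee_comm (B := B) hNA hV h h' _ (ee_mem (B := B) hNA hV h' h'')
  have h9 := ee_comm (B := B) hNA hV h h'' _ (In.mul (ee_mem (B := B) hNA hV h h')
    (ee_mem (B := B) hNA hV h' h''))
  rw [sub_mul, sub_mul, one_mul, sub_eq_zero, ← h8, mul_assoc, ← h8, h9] at h6
  exact h6.symm

theorem ee_shift (g : G) (a : Alg A) (ha : a ∈ V g) (h h' : G) :
    a * ee (B := B) hNA hV h h' = ee (B := B) hNA hV (h * g⁻¹) (h' * g⁻¹) * a := by
  by_cases hh : h = h'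
  · subst hh
    rw [ee_self, ee_self, one_mul, mul_one]
  have key : ∀ (g : G) (a : Alg A), a ∈ V g → ∀ h h' : G, h ≠ h' →
      a * ee (B := B) hNA hV h h' =
        ee (B := B) hNA hV (h * g⁻¹) (h' * g⁻¹) * a * ee (B := B) hNA hV h h' := by
    intro g a ha h h' hh
    have hh' : h * g⁻¹ ≠ h' * g⁻¹ := fun e => hh (mul_right_cancel e)
    have h1 := (ee_supp (B := B) hNA hV hh).kill
      ((1 - ee (B := B) hNA hV (h * g⁻¹) (h' * g⁻¹)) * a) (by
        intro i hi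
        have h2 := (ee_supp (B := B) hNA hV hh').of_sq (Id_shift hV ha hi)
        rw [mul_assoc, sub_mul, one_mul, h2, sub_self])
    rw [sub_mul, one_mul, sub_mul, sub_eq_zero] at h1
    exact h1
  have h1 := key g a ha h h' hh
  have hh' : h * g⁻¹ ≠ h' * g⁻¹ := fun e => hh (mul_right_cancel e)
  have h2 := key g⁻¹ (star a) (hV.star_mem _ _ ha) (h * g⁻¹) (h' * g⁻¹) hh'
  have e1 : h * g⁻¹ * g⁻¹⁻¹ = h := by group
  have e2 : h' * g⁻¹ * g⁻¹⁻¹ = h' := by group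
  rw [e1, e2] at h2
  have h3 := congrArg star h2
  rw [star_mul, star_mul, star_mul, star_star, ee_star, ee_star] at h3
  exact h1.trans (by rw [mul_assoc, ← h3])

/-- `E_B` on the component of degree `g` -/
theorem ee_condexp (hτ : IsTrace A τ) (hNB : ∀ x : H →L[ℂ] H, x ∈ N → x ∈ B) {g : G}
    (hg : g ≠ 1) {b y : Alg A} (hb : b ∈ V g) (hbB : In B b) (hy : y ∈ V g)
    (hyp : Perp A B τ y) :
    ee (B := B) hNA hV 1 g⁻¹ * b = b ∧ ee (B := B) hNA hV 1 g⁻¹ * y = 0 := by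
  have hg' : (1 : G) ≠ g⁻¹ := fun h => hg (inv_eq_one.1 h.symm)
  refine ⟨(ee_supp (B := B) hNA hV hg').of_sq ⟨1, hV.one, b, ?_, hbB, star b,
    hV.star_mem _ _ hb, ?_⟩, (ee_supp (B := B) hNA hV hg').kill_left ?_⟩
  · rw [one_mul, inv_inv]
    exact hb
  · rw [star_one, one_mul]
  · rintro i ⟨x, hx, b', hb', hbB', z, hz, rfl⟩
    rw [one_mul, inv_inv] at hb'
    have h1 : star b' * x * y ∈ V 1 := by
      have h2 := hV.mul _ _ _ _ (hV.mul _ _ _ _ (hV.star_mem _ _ hb') hx) hy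
      rw [mul_one, inv_mul_cancel] at h2
      exact h2
    have h3 : In N (star b' * x * y) := (hV.one_iff _).1 h1
    have hxB : In B x := hNB _ ((hV.one_iff _).1 hx)
    have h4 : star b' * x * y = 0 := by
      refine eq_zero_of_perp hτ (hNB _ h3) ?_
      exact perp_mul_left hτ hyp (In.mul hbB'.star hxB)
    rw [star_mul, star_mul, star_star]
    calc star z * (star b' * x) * y = star z * (star b' * x * y) := by noncomm_ring
      _ = 0 := by rw [h4, mul_zero]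

end

/-- Graded algebras over graded subalgebras. -/
theorem connesEmb_of_grad {A B N : VonNeumannAlgebra H} (hBA : ∀ x : H →L[ℂ] H, x ∈ B → x ∈ A)
    (hNB : ∀ x : H →L[ℂ] H, x ∈ N → x ∈ B)
    {τ : Alg A →ₗ[ℂ] ℂ} (hτ : IsTrace A τ) (hA : ConnesEmb A τ) {G : Type v} [Group G]
    {V : G → Submodule ℂ (Alg A)} (hV : IsGrad A N τ V) (hG : FreeFolner G)
    (hB : ∀ g, ∀ a ∈ V g, ∃ b ∈ V g, In B b ∧ Perp A B τ (a - b))
    {K : Type*} [NormedAddCommGroup K] [InnerProductSpace ℂ K] [CompleteSpace K]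
    {M : VonNeumannAlgebra K} {φ : Alg M →ₗ[ℂ] ℂ} (hφ : IsTrace M φ)
    {J : Type*} {ι : J → Alg A →⋆ₐ[ℂ] Alg M} (hι : IsFreePower A B τ M φ ι) :
    ConnesEmb M φ := by
  have hNA : ∀ x : H →L[ℂ] H, x ∈ N → x ∈ A := fun x hx => hBA x (hNB x hx)
  let X : Setup (Alg A) G :=
    { V := V
      V_one := hV.one
      V_mul := hV.mul
      V_star := hV.star_mem
      e := ee (B := B) hNA hV
      e_mem := fun h h' => (hV.one_iff _).2 (ee_mem hNA hV h h')
      e_star := ee_star hNA hV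
      e_idem := ee_idem hNA hV
      e_self := ee_self hNA hV
      e_symm := ee_symm hNA hV
      e_trans := ee_trans hNA hV hNB
      e_shift := fun g a ha h h' => ee_shift hNA hV g a ha h h' }
  have hMemb : MicroEmb τ := fun F m ε hε => hA F m ε hε
  have hV1 : ∀ (g : G) (x : Alg A), g = 1 → x ∈ V g → x ∈ V 1 := by
    rintro g x rfl h
    exact h
  -- the two parts of a homogeneous element
  have hsplit : ∀ a : X.K, ∃ b y : X.K, b.1 = a.1 ∧ y.1 = a.1 ∧ In B (b.2 : Alg A) ∧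
      Perp A B τ (y.2 : Alg A) ∧ (a.2 : Alg A) = b.2 + y.2 ∧ X.isB b ∧ X.isC y := by
    intro a
    by_cases ha : a.1 = 1
    · refine ⟨a, ⟨a.1, 0⟩, rfl, rfl, ?_, ?_, ?_, ?_, ?_⟩
      · exact hNB _ ((hV.one_iff _).1 (hV1 a.1 (a.2 : Alg A) ha a.2.2))
      · intro b _
        show τ ((0 : Alg A) * b) = 0
        rw [zero_mul, map_zero]
      · exact (add_zero _).symm
      · show X.e 1 a.1⁻¹ * (a.2 : Alg A) = a.2
        have h0 : X.e 1 a.1⁻¹ = 1 := by
          rw [ha, inv_one]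
          exact X.e_self 1
        rw [h0, one_mul]
      · show X.e 1 a.1⁻¹ * (0 : Alg A) = 0
        rw [mul_zero]
    · obtain ⟨b, hb, hbB, hp⟩ := hB a.1 (a.2 : Alg A) a.2.2
      have hy : (a.2 : Alg A) - b ∈ V a.1 := (V a.1).sub_mem a.2.2 hb
      obtain ⟨h1, h2⟩ := ee_condexp hNA hV hτ hNB ha hb hbB hy hp
      exact ⟨⟨a.1, ⟨b, hb⟩⟩, ⟨a.1, ⟨(a.2 : Alg A) - b, hy⟩⟩, rfl, rfl, hbB, hp,
        (add_sub_cancel b (a.2 : Alg A)).symm, h1, h2⟩
  have e_add : ∀ a b y : X.K, b.1 = a.1 → y.1 = a.1 → (a.2 : Alg A) = b.2 + y.2 → X.isB b →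
      X.isC y → X.e 1 a.1⁻¹ * (a.2 : Alg A) = b.2 := by
    intro a b y hb1 hy1 h1 h2 h3
    have e1 : X.e 1 b.1⁻¹ = X.e 1 a.1⁻¹ := by rw [hb1]
    have e2 : X.e 1 y.1⁻¹ = X.e 1 a.1⁻¹ := by rw [hy1]
    have h4 : X.e 1 a.1⁻¹ * (b.2 : Alg A) = b.2 := by
      rw [← e1]
      exact h2
    have h5 : X.e 1 a.1⁻¹ * (y.2 : Alg A) = 0 := by
      rw [← e2]
      exact h3
    rw [h1, mul_add, h4, h5, add_zero]
  refine connesEmb_of_letters (B := B) hτ (κ := X.K) X.kmul X.kst X.isB X.isC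
    (fun a => ‖(a.2 : Alg A)‖) X.c0 (fun a b => rfl) (fun a => rfl) (fun a => le_rfl) ?_ ?_ ?_
    ?_ (fun F m ε hε => X.model hτ.trAlg hMemb hV.trace hG.reps F m ε hε) hφ hι
  · intro a ha
    obtain ⟨b, y, hb1, hy1, hbB, -, h1, h2, h3⟩ := hsplit a
    have h4 := e_add a b y hb1 hy1 h1 h2 h3
    have h5 : (a.2 : Alg A) = b.2 := ha.symm.trans h4
    show In B (a.2 : Alg A)
    rw [h5]
    exact hbB
  · intro a ha
    obtain ⟨b, y, hb1, hy1, hbB, hyp, h1, h2, h3⟩ := hsplit a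
    have h4 := e_add a b y hb1 hy1 h1 h2 h3
    have h5 : (b.2 : Alg A) = 0 := h4.symm.trans ha
    have h6 : X.c0 a = (y.2 : Alg A) := by
      show (a.2 : Alg A) = y.2
      rw [h1, h5, zero_add]
    rw [h6]
    exact hyp
  · intro a
    obtain ⟨b, y, hb1, hy1, hbB, hyp, h1, h2, h3⟩ := hsplit a
    refine Or.inr (Or.inr ⟨y, b, h3, h2, ?_⟩)
    show (a.2 : Alg A) = y.2 + b.2
    rw [h1, add_comm]
  · refine hV.gen.trans (Set.centralizer_subset (Set.centralizer_subset ?_))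
    rintro x ⟨g, a, ha, rfl⟩
    exact ⟨⟨g, ⟨a, ha⟩⟩, rfl⟩

/-- If `N' ∩ A ⊆ N` then every `B` between `N` and `A` is graded. -/
theorem graded_of_irr {A B N : VonNeumannAlgebra H} (hBA : ∀ x : H →L[ℂ] H, x ∈ B → x ∈ A)
    (hNB : ∀ x : H →L[ℂ] H, x ∈ N → x ∈ B)
    {τ : Alg A →ₗ[ℂ] ℂ} (hτ : IsTrace A τ) {G : Type v} [Group G]
    {V : G → Submodule ℂ (Alg A)} (hV : IsGrad A N τ V)
    (hirr : ∀ a : Alg A, (∀ x : Alg A, In N x → a * x = x * a) → In N a) :
    ∀ g, ∀ a ∈ V g, ∃ b ∈ V g, In B b ∧ Perp A B τ (a - b) := by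
  intro g a ha
  have h1 : In N (a * star a) := by
    have h2 := hV.mul _ _ _ _ ha (hV.star_mem _ _ ha)
    rw [mul_inv_cancel] at h2
    exact (hV.one_iff _).1 h2
  have h3 : ∀ x : Alg A, In N x → In N (star a * x * a) := by
    intro x hx
    have h2 := hV.mul _ _ _ _ (hV.mul _ _ _ _ (hV.star_mem _ _ ha) ((hV.one_iff _).2 hx)) ha
    rw [mul_one, inv_mul_cancel] at h2
    exact (hV.one_iff _).1 h2
  obtain ⟨z, hz, hzB, hzp⟩ := exists_mul_of_relComm hτ hBA hNB hirr a h1 h3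
  have h4 := hV.mul _ _ _ _ ((hV.one_iff _).2 hz) ha
  rw [one_mul] at h4
  exact ⟨z * a, h4, hzB, hzp⟩

end Pool.Agent.QFJ
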