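import Pool.Agent.QFJ.Theta

/-!
# [QFJ.Labels] The sign unitaries `vv s j k`
-/

set_option autoImplicit false

namespace Pool.Agent.QFJ

open Pool.Agent.QFP Pool.Agent.QFI
open scoped Matrix.Norms.L2Operator

universe u v w'

attribute [local instance] matCStar

namespace Setup

variable {𝒜 : Type u} [CStarAlgebra 𝒜] {G : Type v} [Group G] (X : Setup 𝒜 G) {m : ℕ}
  (w : Fin m → G) {n : ℕ} {S : Type w'} (φ : FreeGroup S →* G)

omit [Group G] in
/-- the label of the position `j` in the pattern `c` -/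
noncomputable def F (w : Fin m → G) (s : Fin n) (j : Fin m) (c : Fin m × Fin m → Bool) :
    Matrix (Lb n m) (Lb n m) ℂ :=
  Matrix.diagonal fun d => sgn (d (s, rep w c j))

/-- the sign unitary for the `s`-th copy at the position `j` of the window at the place `k` -/
noncomputable def vv (s : Fin n) (j : Fin m) (k : G) : CStarMatrix (Lb n m) (Lb n m) 𝒜 :=
  Xi (Lb n m) (X.q w k) (X.q_part w k) (F w s j)

theorem vv_star (s : Fin n) (j : Fin m) (k : G) : star (X.vv w s j k) = X.vv w s j k := by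
  unfold vv
  rw [← map_star]
  congr 1
  funext c
  show star (Matrix.diagonal fun d : Lb n m => sgn (d (s, rep w c j))) = _
  rw [Matrix.star_eq_conjTranspose, Matrix.diagonal_conjTranspose]
  congr 1
  funext d
  exact star_sgn _

theorem vv_sq (s : Fin n) (j : Fin m) (k : G) : X.vv w s j k * X.vv w s j k = 1 := by
  unfold vv
  rw [← map_mul]
  have h : (F w s j * F w s j : (Fin m × Fin m → Bool) → Matrix (Lb n m) (Lb n m) ℂ) = 1 := by
    funext c
    show (Matrix.diagonal fun d : Lb n m => sgn (d (s, rep w c j))) *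
      (Matrix.diagonal fun d : Lb n m => sgn (d (s, rep w c j))) = 1
    rw [Matrix.diagonal_mul_diagonal, ← Matrix.diagonal_one]
    congr 1
    funext d
    exact sgn_mul_self _
  rw [h, map_one]

theorem vv_shift (s : Fin n) (j : Fin m) (k h : G) (a : 𝒜) (ha : a ∈ X.V h) :
    jmap (Lb n m) a * X.vv w s j k = X.vv w s j (k * h⁻¹) * jmap (Lb n m) a :=
  Xi_shift _ _ _ _ _ _ fun c => X.q_shift w h a ha k c

theorem e_mul_Xi (j j' : Fin m) (k : G)
    (P : (Fin m × Fin m → Bool) → Matrix (Lb n m) (Lb n m) ℂ) :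
    jmap (Lb n m) (X.e (w j * k) (w j' * k)) * Xi (Lb n m) (X.q w k) (X.q_part w k) P =
      Xi (Lb n m) (X.q w k) (X.q_part w k) (fun c => if c (j, j') then P c else 0) := by
  rw [Xi_apply, Xi_apply, Finset.mul_sum]
  refine Finset.sum_congr rfl fun c _ => ?_
  rw [← mul_assoc, ← map_mul, X.e_mul_q]
  by_cases h : c (j, j') = true
  · rw [if_pos h, if_pos h]
  · rw [if_neg h, if_neg h, map_zero, zero_mul, map_zero, mul_zero]

theorem e_mul_vv (s : Fin n) (j j' : Fin m) (k : G) :
    jmap (Lb n m) (X.e (w j * k) (w j' * k)) * X.vv w s j k =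
      jmap (Lb n m) (X.e (w j * k) (w j' * k)) * X.vv w s j' k := by
  unfold vv
  rw [e_mul_Xi, e_mul_Xi]
  refine Xi_congr _ _ _ _ fun c hc => ?_
  by_cases h : c (j, j') = true
  · rw [if_pos h, if_pos h]
    show (Matrix.diagonal fun d : Lb n m => sgn (d (s, rep w c j))) =
      (Matrix.diagonal fun d : Lb n m => sgn (d (s, rep w c j')))
    rw [(rep_iff w c (X.isPat w k c hc) j j').2 h]
  · rw [if_neg h, if_neg h]

theorem vv_congr (s : Fin n) (j j' : Fin m) (k : G) (h : w j = w j') :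
    X.vv w s j k = X.vv w s j' k := by
  have h1 := X.e_mul_vv w s j j' k
  rw [h, X.e_self, map_one, one_mul, one_mul] at h1
  exact h1

theorem vv_St (g k : G) (s : Fin n) (j j' : Fin m) (h : w j' = w j * g) :
    X.vv w s j (g * k) * X.St w n g k = X.St w n g k * X.vv w s j' k := by
  unfold vv St
  rw [← Xi_snd (X.q_part w k) (X.q_part w (g * k)) (X.q_hc w g k) (F w s j),
    ← Xi_fst (X.q_part w k) (X.q_part w (g * k)) (X.q_hc w g k) (F w s j')]
  show Xi (Lb n m) (X.z w g k) (X.z_part w g k) (fun i => F w s j i.2) *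
      Xi (Lb n m) (X.z w g k) (X.z_part w g k) (fun i => A2x_P (rho w n g i.1 i.2)) =
    Xi (Lb n m) (X.z w g k) (X.z_part w g k) (fun i => A2x_P (rho w n g i.1 i.2)) *
      Xi (Lb n m) (X.z w g k) (X.z_part w g k) (fun i => F w s j' i.1)
  rw [← map_mul, ← map_mul]
  refine Xi_congr _ _ _ _ fun i hi => ?_
  show F w s j i.2 * A2x_P (rho w n g i.1 i.2) = A2x_P (rho w n g i.1 i.2) * F w s j' i.1
  refine (A2x_diag _ _ _ fun d => ?_).symm
  have h1 : X.q w k i.1 ≠ 0 := by
    intro h0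
    apply hi
    show X.q w k i.1 * X.q w (g * k) i.2 = 0
    rw [h0, zero_mul]
  have h2 : X.q w (g * k) i.2 ≠ 0 := by
    intro h0
    apply hi
    show X.q w k i.1 * X.q w (g * k) i.2 = 0
    rw [h0, mul_zero]
  rw [rho_spec w g i.1 i.2 (X.isPat w k i.1 h1) (X.isPat w (g * k) i.2 h2)
    (X.comp_of_ne w g k i.1 i.2 hi) s j j' h d]

theorem rel_of (i : S) (s : Fin n) (j j' : Fin m) (k : G)
    (h : w j' = w j * φ (FreeGroup.of i)) :
    X.vv w s j k * X.th w n φ (FreeGroup.of i) k =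
      X.th w n φ (FreeGroup.of i) k * X.vv w s j' ((φ (FreeGroup.of i))⁻¹ * k) := by
  have h1 := X.vv_St w (φ (FreeGroup.of i)) ((φ (FreeGroup.of i))⁻¹ * k) s j j' h
  rw [mul_inv_cancel_left] at h1
  rw [th_of]
  exact h1

theorem rel_inv (i : S) (s : Fin n) (j j' : Fin m) (k : G)
    (h : w j' = w j * φ (FreeGroup.of i)⁻¹) :
    X.vv w s j k * X.th w n φ (FreeGroup.of i)⁻¹ k =
      X.th w n φ (FreeGroup.of i)⁻¹ k * X.vv w s j' ((φ (FreeGroup.of i)⁻¹)⁻¹ * k) := by
  have h1 := X.rel_of w φ i s j' j (φ (FreeGroup.of i) * k)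
    (by rw [h, map_inv, inv_mul_cancel_right])
  rw [inv_mul_cancel_left] at h1
  have h2 : (φ (FreeGroup.of i)⁻¹)⁻¹ * k = φ (FreeGroup.of i) * k := by rw [map_inv, inv_inv]
  rw [th_inv, h2]
  have h3 := congrArg star h1
  rw [star_mul, star_mul, vv_star, vv_star] at h3
  exact h3.symm

/-- the labels move along words whose initial segments are in the window -/
theorem chain (s : Fin n) (L : List (S × Bool)) : ∀ (j : Fin m) (k : G),
    (∀ r ≤ L.length, ∃ j', w j' = w j * φ (FreeGroup.mk (L.take r))) → ∀ j' : Fin m,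
      w j' = w j * φ (FreeGroup.mk L) →
      X.vv w s j k * X.th w n φ (FreeGroup.mk L) k =
        X.th w n φ (FreeGroup.mk L) k * X.vv w s j' ((φ (FreeGroup.mk L))⁻¹ * k) := by
  induction L with
  | nil =>
    intro j k _ j' hj'
    have h1 : FreeGroup.mk ([] : List (S × Bool)) = 1 := FreeGroup.one_eq_mk.symm
    rw [h1, map_one, mul_one] at hj'
    rw [h1, th_one, mul_one, one_mul, map_one, inv_one, one_mul]
    exact X.vv_congr w s j j' k hj'.symm
  | cons p L ih =>
    intro j k hpre j' hj'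
    have h1 : FreeGroup.mk (p :: L) = FreeGroup.mk [p] * FreeGroup.mk L := by
      rw [FreeGroup.mul_mk]
      rfl
    obtain ⟨j1, hj1⟩ := hpre 1 (by simp)
    have h2 : w j1 = w j * φ (FreeGroup.mk [p]) := by
      rw [hj1]
      simp
    have h3 : X.vv w s j k * X.th w n φ (FreeGroup.mk [p]) k =
        X.th w n φ (FreeGroup.mk [p]) k * X.vv w s j1 ((φ (FreeGroup.mk [p]))⁻¹ * k) := by
      obtain ⟨i, b⟩ := p
      cases b
      · have h4 : FreeGroup.mk [(i, false)] = (FreeGroup.of i)⁻¹ := by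
          rw [FreeGroup.of, FreeGroup.inv_mk]
          rfl
        rw [h4] at h2 ⊢
        exact X.rel_inv w φ i s j j1 k h2
      · exact X.rel_of w φ i s j j1 k h2
    have h5 := ih j1 ((φ (FreeGroup.mk [p]))⁻¹ * k) (by
      intro r hr
      obtain ⟨j2, hj2⟩ := hpre (r + 1) (by simpa using hr)
      refine ⟨j2, ?_⟩
      rw [hj2, h2, mul_assoc, ← map_mul, List.take_succ_cons, FreeGroup.mul_mk]
      rfl) j' (by rw [hj', h1, h2, mul_assoc, ← map_mul])
    have h6 : (φ (FreeGroup.mk [p] * FreeGroup.mk L))⁻¹ * k =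
        (φ (FreeGroup.mk L))⁻¹ * ((φ (FreeGroup.mk [p]))⁻¹ * k) := by
      rw [map_mul]
      group
    rw [h1, th_mul, ← mul_assoc, h3, mul_assoc, h5, ← mul_assoc, h6]

end Setup

end Pool.Agent.QFJ
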