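import Pool.Agent.QFI.Cell
import Pool.Agent.QFI.Lab

/-!
# [QFJ.Setup] A graded algebra with central projections `e h h'` moved by the grading

`e h h'` is a central projection of the component of degree `1`; with respect to a finite set of
positions `w j k` (`w` a finite family in `G`, the window, and `k ∈ G` the place of the window) the
projections `e (w j k) (w j' k)` generate a finite algebra, with cells `q k c`.
-/

set_option autoImplicit false

namespace Pool.Agent.QFJ

open Pool.Agent.QFP Pool.Agent.QFI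

universe u v

/-- A grading of a ⋆-subalgebra of `𝒜` by `G` and central projections `e h h'` of the component of
degree `1` with the relations of an equivalence relation on `G`, moved by the homogeneous
elements. -/
structure Setup (𝒜 : Type u) [CStarAlgebra 𝒜] (G : Type v) [Group G] where
  V : G → Submodule ℂ 𝒜
  V_one : (1 : 𝒜) ∈ V 1
  V_mul : ∀ g h a b, a ∈ V g → b ∈ V h → a * b ∈ V (g * h)
  V_star : ∀ g a, a ∈ V g → star a ∈ V g⁻¹
  e : G → G → 𝒜
  e_mem : ∀ h h', e h h' ∈ V 1
  e_star : ∀ h h', star (e h h') = e h h'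
  e_idem : ∀ h h', e h h' * e h h' = e h h'
  e_self : ∀ h, e h h = 1
  e_symm : ∀ h h', e h h' = e h' h
  e_trans : ∀ h h' h'', e h h' * e h' h'' * e h h'' = e h h' * e h' h''
  e_shift : ∀ g a, a ∈ V g → ∀ h h', a * e h h' = e (h * g⁻¹) (h' * g⁻¹) * a

namespace Setup

variable {𝒜 : Type u} [CStarAlgebra 𝒜] {G : Type v} [Group G] (X : Setup 𝒜 G)

/-- the component of degree `1` -/
def N : StarSubalgebra ℂ 𝒜 where
  carrier := X.V 1
  mul_mem' := fun {a b} ha hb => by
    have h := X.V_mul 1 1 a b ha hb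
    rw [mul_one] at h
    exact h
  one_mem' := X.V_one
  add_mem' := fun {a b} ha hb => (X.V 1).add_mem ha hb
  zero_mem' := (X.V 1).zero_mem
  algebraMap_mem' := fun z => by
    rw [Algebra.algebraMap_eq_smul_one]
    exact (X.V 1).smul_mem z X.V_one
  star_mem' := fun {a} ha => by
    have h := X.V_star 1 a ha
    rw [inv_one] at h
    exact h

theorem mem_N (a : 𝒜) : a ∈ X.N ↔ a ∈ X.V 1 := Iff.rfl

theorem e_comm (h h' : G) : ∀ x ∈ X.N, X.e h h' * x = x * X.e h h' := by
  intro x hx
  have h1 := X.e_shift 1 x hx h h'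
  rw [inv_one, mul_one, mul_one] at h1
  exact h1.symm

theorem prod_shift {ι : Type*} (a : 𝒜) (s : Finset ι) (x y : ι → Zc X.N)
    (h : ∀ i, a * (x i : 𝒜) = (y i : 𝒜) * a) :
    a * ((∏ i ∈ s, x i : Zc X.N) : 𝒜) = ((∏ i ∈ s, y i : Zc X.N) : 𝒜) * a := by
  classical
  induction s using Finset.induction with
  | empty =>
    rw [Finset.prod_empty, Finset.prod_empty]
    show a * (1 : 𝒜) = (1 : 𝒜) * a
    rw [mul_one, one_mul]
  | insert i s hi ih =>
    rw [Finset.prod_insert hi, Finset.prod_insert hi]
    show a * ((x i : 𝒜) * ((∏ i ∈ s, x i : Zc X.N) : 𝒜)) =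
      (y i : 𝒜) * ((∏ i ∈ s, y i : Zc X.N) : 𝒜) * a
    rw [← mul_assoc, h, mul_assoc, ih, mul_assoc]

variable {m : ℕ} (w : Fin m → G)

/-- the projections of the window at the place `k` -/
def ee (k : G) (i : Fin m × Fin m) : Zc X.N :=
  ⟨X.e (w i.1 * k) (w i.2 * k), X.e_mem _ _, X.e_comm _ _⟩

theorem ee_idem (k : G) (i : Fin m × Fin m) : X.ee w k i * X.ee w k i = X.ee w k i :=
  Subtype.ext (X.e_idem _ _)

/-- the cells of the window at the place `k` -/
def q (k : G) (c : Fin m × Fin m → Bool) : 𝒜 := (cell (X.ee w k) c : Zc X.N)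

theorem q_mem (k : G) (c : Fin m × Fin m → Bool) : X.q w k c ∈ X.N := (cell (X.ee w k) c).2.1

theorem q_comm (k : G) (c : Fin m × Fin m → Bool) : ∀ x ∈ X.N, X.q w k c * x = x * X.q w k c :=
  (cell (X.ee w k) c).2.2

theorem q_part (k : G) : PartUnity (X.q w k) where
  star_eq c := by
    refine Zc_star_prod _ _ fun i => ?_
    by_cases h : c i = true
    · rw [if_pos h]
      exact X.e_star _ _
    · rw [if_neg h]
      show star (1 - X.e (w i.1 * k) (w i.2 * k)) = 1 - X.e (w i.1 * k) (w i.2 * k)
      rw [star_sub, star_one, X.e_star]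
  mul c c' := by
    have h := congrArg Subtype.val (cell_mul (X.ee w k) (X.ee_idem w k) c c')
    refine Eq.trans h ?_
    by_cases hcc : c = c'
    · rw [if_pos hcc, if_pos hcc]
      rfl
    · rw [if_neg hcc, if_neg hcc]
      rfl
  sum := by
    have h := congrArg Subtype.val (cell_sum (X.ee w k))
    refine Eq.trans ?_ h
    exact (map_sum (Zc X.N).subtype _ _).symm

theorem e_mul_q (k : G) (c : Fin m × Fin m → Bool) (j j' : Fin m) :
    X.e (w j * k) (w j' * k) * X.q w k c = if c (j, j') then X.q w k c else 0 := by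
  have h := congrArg Subtype.val (cell_mul_left (X.ee w k) (X.ee_idem w k) c (j, j'))
  refine Eq.trans h ?_
  by_cases hcc : c (j, j') = true
  · rw [if_pos hcc, if_pos hcc]
    rfl
  · rw [if_neg hcc, if_neg hcc]
    rfl

theorem q_shift (g : G) (a : 𝒜) (ha : a ∈ X.V g) (k : G) (c : Fin m × Fin m → Bool) :
    a * X.q w k c = X.q w (k * g⁻¹) c * a := by
  refine X.prod_shift a Finset.univ _ _ fun i => ?_
  have h1 : a * X.e (w i.1 * k) (w i.2 * k) =
      X.e (w i.1 * (k * g⁻¹)) (w i.2 * (k * g⁻¹)) * a := by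
    rw [X.e_shift g a ha, mul_assoc, mul_assoc]
  by_cases h : c i = true
  · rw [if_pos h, if_pos h]
    exact h1
  · rw [if_neg h, if_neg h]
    show a * (1 - X.e (w i.1 * k) (w i.2 * k)) =
      (1 - X.e (w i.1 * (k * g⁻¹)) (w i.2 * (k * g⁻¹))) * a
    rw [mul_sub, sub_mul, mul_one, one_mul, h1]

/-- the pattern `c` is an equivalence relation which contains the coincidences of the window -/
structure IsPat (c : Fin m × Fin m → Bool) : Prop where
  refl : ∀ j j', w j = w j' → c (j, j') = true
  symm : ∀ j j', c (j, j') = true → c (j', j) = true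
  trans : ∀ j j' j'', c (j, j') = true → c (j', j'') = true → c (j, j'') = true

theorem isPat (k : G) (c : Fin m × Fin m → Bool) (hc : X.q w k c ≠ 0) : IsPat w c := by
  have hq : ∀ j j', c (j, j') = true ↔ X.e (w j * k) (w j' * k) * X.q w k c = X.q w k c := by
    intro j j'
    rw [X.e_mul_q]
    constructor
    · intro h
      rw [if_pos h]
    · intro h
      by_contra h'
      rw [if_neg h'] at h
      exact hc h.symm
  refine ⟨fun j j' h => ?_, fun j j' h => ?_, fun j j' j'' h h' => ?_⟩
  · rw [hq, h, X.e_self, one_mul]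
  · rw [hq] at h ⊢
    rw [X.e_symm]
    exact h
  · rw [hq] at h h' ⊢
    have h5 := X.e_trans (w j * k) (w j' * k) (w j'' * k)
    calc X.e (w j * k) (w j'' * k) * X.q w k c
        = X.e (w j * k) (w j'' * k) * (X.e (w j * k) (w j' * k) *
            (X.e (w j' * k) (w j'' * k) * X.q w k c)) := by rw [h', h]
      _ = (X.e (w j * k) (w j' * k) * X.e (w j' * k) (w j'' * k) *
            X.e (w j * k) (w j'' * k)) * X.q w k c := by
          rw [← mul_assoc, ← mul_assoc,
            X.e_comm (w j * k) (w j'' * k) _ (X.e_mem (w j * k) (w j' * k)),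
            mul_assoc (X.e (w j * k) (w j' * k)),
            X.e_comm (w j * k) (w j'' * k) _ (X.e_mem (w j' * k) (w j'' * k)), ← mul_assoc]
      _ = X.e (w j * k) (w j' * k) * (X.e (w j' * k) (w j'' * k) * X.q w k c) := by
          rw [h5, mul_assoc]
      _ = X.q w k c := by rw [h', h]

omit [Group G] in
theorem exists_rep (c : Fin m × Fin m → Bool) : ∃ r : Fin m → Fin m, IsPat w c →
    ∀ j j', r j = r j' ↔ c (j, j') = true := by
  classical
  by_cases hc : IsPat w c
  · let st : Setoid (Fin m) :=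
      { r := fun j j' => c (j, j') = true
        iseqv := ⟨fun j => hc.refl j j rfl, fun {j j'} h => hc.symm j j' h,
          fun {j j' j''} h h' => hc.trans j j' j'' h h'⟩ }
    refine ⟨fun j => (Quotient.mk st j).out, fun _ j j' => ?_⟩
    rw [Quotient.out_inj]
    exact Quotient.eq
  · exact ⟨id, fun h => absurd h hc⟩

/-- representatives of the classes of a pattern -/
noncomputable def rep (c : Fin m × Fin m → Bool) : Fin m → Fin m := (exists_rep w c).choose

omit [Group G] in
theorem rep_iff (c : Fin m × Fin m → Bool) (hc : IsPat w c) (j j' : Fin m) :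
    rep w c j = rep w c j' ↔ c (j, j') = true := (exists_rep w c).choose_spec hc j j'

/-- the patterns `c'` at `g k` and `c` at `k` are compatible -/
def Comp (g : G) (c c' : Fin m × Fin m → Bool) : Prop :=
  ∀ j1 j2 j1' j2' : Fin m, w j1' = w j1 * g → w j2' = w j2 * g →
    (c' (j1, j2) = true ↔ c (j1', j2') = true)

theorem comp_of_ne (g k : G) (c c' : Fin m × Fin m → Bool)
    (h : X.q w k c * X.q w (g * k) c' ≠ 0) : Comp w g c c' := by
  intro j1 j2 j1' j2' h1 h2
  have e0 : X.e (w j1 * (g * k)) (w j2 * (g * k)) = X.e (w j1' * k) (w j2' * k) := by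
    rw [h1, h2, mul_assoc, mul_assoc]
  have e1 : X.e (w j1' * k) (w j2' * k) * (X.q w k c * X.q w (g * k) c') =
      if c (j1', j2') then X.q w k c * X.q w (g * k) c' else 0 := by
    rw [← mul_assoc, X.e_mul_q]
    split_ifs
    · rfl
    · rw [zero_mul]
  have e2 : X.e (w j1' * k) (w j2' * k) * (X.q w k c * X.q w (g * k) c') =
      if c' (j1, j2) then X.q w k c * X.q w (g * k) c' else 0 := by
    rw [X.q_comm w k c _ (X.q_mem w (g * k) c'), ← mul_assoc, ← e0, X.e_mul_q]
    split_ifs
    · rfl
    · rw [zero_mul]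
  rw [e1] at e2
  constructor
  · intro h3
    rw [if_pos h3] at e2
    by_contra h4
    rw [if_neg h4] at e2
    exact h e2.symm
  · intro h3
    rw [if_pos h3] at e2
    by_contra h4
    rw [if_neg h4] at e2
    exact h e2

end Setup

end Pool.Agent.QFJ
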