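import Pool.Agent.QFJ.Setup

/-!
# [QFJ.Theta] The cocycle `th l k` and the labels `vv s j k`
-/

set_option autoImplicit false

namespace Pool.Agent.QFJ

open Pool.Agent.QFP Pool.Agent.QFI
open scoped Matrix.Norms.L2Operator

universe u v w'

attribute [local instance] matCStar

/-- the labels -/
abbrev Lb (n m : ℕ) : Type := Fin n × Fin m → ZMod 2

theorem Xi_shift {𝒜 : Type u} [CStarAlgebra 𝒜] {D : Type} [Fintype D] [DecidableEq D] {K : Type*}
    [Fintype K] [DecidableEq K] (z z' : K → 𝒜) (hz : PartUnity z) (hz' : PartUnity z')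
    (P : K → Matrix D D ℂ) (a : 𝒜) (h : ∀ k, a * z k = z' k * a) :
    jmap D a * Xi D z hz P = Xi D z' hz' P * jmap D a := by
  rw [Xi_apply, Xi_apply, Finset.sum_mul, Finset.mul_sum]
  refine Finset.sum_congr rfl fun k _ => ?_
  rw [mul_assoc, ← jmap_smap_comm, ← mul_assoc, ← mul_assoc, ← map_mul, h, map_mul]

theorem Xi_entry_mem {𝒜 : Type u} [CStarAlgebra 𝒜] {D : Type} [Fintype D] [DecidableEq D]
    {K : Type*} [Fintype K] [DecidableEq K] (N : StarSubalgebra ℂ 𝒜) (z : K → 𝒜)
    (hz : PartUnity z) (P : K → Matrix D D ℂ) (h : ∀ k, z k ∈ N) (i j : D) :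
    Xi D z hz P i j ∈ N := by
  rw [Xi_apply]
  have h1 : (∑ k, jmap D (z k) * smap D 𝒜 (P k)) i j =
      ∑ k, (jmap D (z k) * smap D 𝒜 (P k)) i j :=
    Matrix.sum_apply i j Finset.univ fun k => (jmap D (z k) * smap D 𝒜 (P k) : Matrix D D 𝒜)
  rw [h1]
  refine sum_mem fun k _ => ?_
  rw [jmap_mul_smap_apply]
  exact N.smul_mem (h k) _

namespace Setup

section rho

variable {G : Type v} [Group G] {m : ℕ} (w : Fin m → G)

theorem exists_rho (n : ℕ) (g : G) (c c' : Fin m × Fin m → Bool) :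
    ∃ ρ : Equiv.Perm (Lb n m), IsPat w c → IsPat w c' → Comp w g c c' →
      ∀ (s : Fin n) (j j' : Fin m), w j' = w j * g →
        ∀ d, (ρ d) (s, rep w c j') = d (s, rep w c' j) := by
  by_cases hc : IsPat w c
  · by_cases hc' : IsPat w c'
    · by_cases hg : Comp w g c c'
      · let O : Type := Fin n × {p : Fin m × Fin m // w p.2 = w p.1 * g}
        let r' : O → Fin n × Fin m := fun o => (o.1, rep w c o.2.1.2)
        let r : O → Fin n × Fin m := fun o => (o.1, rep w c' o.2.1.1)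
        obtain ⟨σ, hσ⟩ := exists_perm_comp r r' (by
          rintro ⟨s, ⟨⟨j1, j1'⟩, h1⟩⟩ ⟨s', ⟨⟨j2, j2'⟩, h2⟩⟩
          show (s, rep w c' j1) = (s', rep w c' j2) ↔ (s, rep w c j1') = (s', rep w c j2')
          rw [Prod.ext_iff, Prod.ext_iff]
          refine and_congr_right fun _ => ?_
          show rep w c' j1 = rep w c' j2 ↔ rep w c j1' = rep w c j2'
          rw [rep_iff w c' hc', rep_iff w c hc]
          exact hg j1 j2 j1' j2' h1 h2)
        exact ⟨σ, fun _ _ _ s j j' h d => hσ d (s, ⟨(j, j'), h⟩)⟩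
      · exact ⟨1, fun _ _ h => absurd h hg⟩
    · exact ⟨1, fun _ h => absurd h hc'⟩
  · exact ⟨1, fun h => absurd h hc⟩

/-- the matching permutation -/
noncomputable def rho (n : ℕ) (g : G) (c c' : Fin m × Fin m → Bool) : Equiv.Perm (Lb n m) :=
  (exists_rho w n g c c').choose

theorem rho_spec {n : ℕ} (g : G) (c c' : Fin m × Fin m → Bool) (hc : IsPat w c)
    (hc' : IsPat w c') (hg : Comp w g c c') (s : Fin n) (j j' : Fin m) (h : w j' = w j * g)
    (d : Lb n m) : (rho w n g c c' d) (s, rep w c j') = d (s, rep w c' j) :=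
  (exists_rho w n g c c').choose_spec hc hc' hg s j j' h d

end rho

variable {𝒜 : Type u} [CStarAlgebra 𝒜] {G : Type v} [Group G] (X : Setup 𝒜 G) {m : ℕ}
  (w : Fin m → G) (n : ℕ)

theorem q_hc (g k : G) (c c' : Fin m × Fin m → Bool) :
    X.q w k c * X.q w (g * k) c' = X.q w (g * k) c' * X.q w k c :=
  X.q_comm w k c _ (X.q_mem w (g * k) c')

/-- the common refinement of the cells at `k` and at `g k` -/
def z (g k : G) (i : (Fin m × Fin m → Bool) × (Fin m × Fin m → Bool)) : 𝒜 :=
  X.q w k i.1 * X.q w (g * k) i.2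

theorem z_part (g k : G) : PartUnity (X.z w g k) :=
  (X.q_part w k).prod (X.q_part w (g * k)) (X.q_hc w g k)

/-- the step of the cocycle from the place `k` to the place `g k` -/
noncomputable def St (g k : G) : CStarMatrix (Lb n m) (Lb n m) 𝒜 :=
  Xi (Lb n m) (X.z w g k) (X.z_part w g k) fun i => A2x_P (rho w n g i.1 i.2)

theorem St_right (g k : G) : X.St w n g k * star (X.St w n g k) = 1 := by
  unfold St
  rw [← map_star, ← map_mul]
  have h : ((fun i : (Fin m × Fin m → Bool) × (Fin m × Fin m → Bool) =>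
      A2x_P (rho w n g i.1 i.2)) * star fun i => A2x_P (rho w n g i.1 i.2)) =
      (1 : (Fin m × Fin m → Bool) × (Fin m × Fin m → Bool) → Matrix (Lb n m) (Lb n m) ℂ) := by
    funext i
    exact A2x_unitary _
  rw [h, map_one]

theorem St_left (g k : G) : star (X.St w n g k) * X.St w n g k = 1 := by
  unfold St
  rw [← map_star, ← map_mul]
  have h : ((star fun i : (Fin m × Fin m → Bool) × (Fin m × Fin m → Bool) =>
      A2x_P (rho w n g i.1 i.2)) * fun i => A2x_P (rho w n g i.1 i.2)) =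
      (1 : (Fin m × Fin m → Bool) × (Fin m × Fin m → Bool) → Matrix (Lb n m) (Lb n m) ℂ) := by
    funext i
    exact mul_eq_one_comm.1 (A2x_unitary _)
  rw [h, map_one]

theorem St_shift (g k h : G) (a : 𝒜) (ha : a ∈ X.V h) :
    jmap (Lb n m) a * X.St w n g k = X.St w n g (k * h⁻¹) * jmap (Lb n m) a := by
  refine Xi_shift _ _ _ _ _ _ fun i => ?_
  show a * (X.q w k i.1 * X.q w (g * k) i.2) =
    X.q w (k * h⁻¹) i.1 * X.q w (g * (k * h⁻¹)) i.2 * a
  rw [← mul_assoc, X.q_shift w h a ha, mul_assoc, X.q_shift w h a ha, mul_assoc g,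
    ← mul_assoc]

theorem St_entry (g k : G) (i j : Lb n m) : X.St w n g k i j ∈ X.N :=
  Xi_entry_mem X.N _ _ _ (fun i => mul_mem (X.q_mem w _ _) (X.q_mem w _ _)) i j

variable {S : Type w'} (φ : FreeGroup S →* G)

/-- the group in which the cocycle takes its values -/
abbrev Wr (n m : ℕ) (𝒜 : Type u) [CStarAlgebra 𝒜] (G : Type v) [Group G] : Type (max u v) :=
  (G → unitary (CStarMatrix (Lb n m) (Lb n m) 𝒜)) ⋊[mulAutArrow] G

/-- the cocycle as a homomorphism -/
noncomputable def thHom : FreeGroup S →* Wr n m 𝒜 G :=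
  FreeGroup.lift fun s => ⟨fun k => ⟨X.St w n (φ (FreeGroup.of s)) ((φ (FreeGroup.of s))⁻¹ * k), by
    rw [Unitary.mem_iff]
    exact ⟨X.St_left w n _ _, X.St_right w n _ _⟩⟩, φ (FreeGroup.of s)⟩

theorem thHom_right (l : FreeGroup S) : (X.thHom w n φ l).right = φ l := by
  have h : (SemidirectProduct.rightHom.comp (X.thHom w n φ)) = φ := by
    refine FreeGroup.ext_hom _ _ fun s => ?_
    show (X.thHom w n φ (FreeGroup.of s)).right = φ (FreeGroup.of s)
    unfold thHom
    rw [FreeGroup.lift_apply_of]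
  exact DFunLike.congr_fun h l

/-- the cocycle `th l k` for the move `l` to the place `k` -/
noncomputable def th (l : FreeGroup S) (k : G) : CStarMatrix (Lb n m) (Lb n m) 𝒜 :=
  ((X.thHom w n φ l).left k : unitary (CStarMatrix (Lb n m) (Lb n m) 𝒜))

theorem th_one (k : G) : X.th w n φ 1 k = 1 := by
  unfold th
  rw [map_one, SemidirectProduct.one_left]
  rfl

theorem th_mul (l l' : FreeGroup S) (k : G) :
    X.th w n φ (l * l') k = X.th w n φ l k * X.th w n φ l' ((φ l)⁻¹ * k) := by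
  unfold th
  rw [map_mul, SemidirectProduct.mul_left, X.thHom_right]
  rfl

theorem th_of (s : S) (k : G) : X.th w n φ (FreeGroup.of s) k =
    X.St w n (φ (FreeGroup.of s)) ((φ (FreeGroup.of s))⁻¹ * k) := by
  unfold th thHom
  rw [FreeGroup.lift_apply_of]

theorem th_left (l : FreeGroup S) (k : G) : star (X.th w n φ l k) * X.th w n φ l k = 1 :=
  Unitary.star_mul_self_of_mem ((X.thHom w n φ l).left k).2

theorem th_right (l : FreeGroup S) (k : G) : X.th w n φ l k * star (X.th w n φ l k) = 1 :=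
  Unitary.mul_star_self_of_mem ((X.thHom w n φ l).left k).2

theorem th_inv (l : FreeGroup S) (k : G) :
    X.th w n φ l⁻¹ k = star (X.th w n φ l (φ l * k)) := by
  have h := X.th_mul w n φ l⁻¹ l k
  rw [inv_mul_cancel, th_one, map_inv, inv_inv] at h
  calc X.th w n φ l⁻¹ k = X.th w n φ l⁻¹ k * (X.th w n φ l (φ l * k) *
        star (X.th w n φ l (φ l * k))) := by rw [th_right, mul_one]
    _ = (X.th w n φ l⁻¹ k * X.th w n φ l (φ l * k)) * star (X.th w n φ l (φ l * k)) := by
        rw [mul_assoc]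
    _ = _ := by rw [← h, one_mul]

/-- the cocycle is moved by the homogeneous elements -/
theorem th_shift (l : FreeGroup S) : ∀ (h : G) (a : 𝒜), a ∈ X.V h → ∀ k : G,
    jmap (Lb n m) a * X.th w n φ l k = X.th w n φ l (k * h⁻¹) * jmap (Lb n m) a := by
  induction l using FreeGroup.induction_on with
  | C1 =>
    intro h a _ k
    rw [th_one, th_one, mul_one, one_mul]
  | of s =>
    intro h a ha k
    show jmap (Lb n m) a * X.th w n φ (FreeGroup.of s) k =
      X.th w n φ (FreeGroup.of s) (k * h⁻¹) * jmap (Lb n m) a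
    rw [th_of, th_of, X.St_shift w n _ _ h a ha, mul_assoc]
  | inv_of s ih =>
    intro h a ha k
    show jmap (Lb n m) a * X.th w n φ (FreeGroup.of s)⁻¹ k =
      X.th w n φ (FreeGroup.of s)⁻¹ (k * h⁻¹) * jmap (Lb n m) a
    rw [th_inv, th_inv]
    have h1 := ih h⁻¹ (star a) (X.V_star h a ha) (φ (FreeGroup.of s) * (k * h⁻¹))
    change jmap (Lb n m) (star a) * X.th w n φ (FreeGroup.of s) (φ (FreeGroup.of s) * (k * h⁻¹)) =
      X.th w n φ (FreeGroup.of s) (φ (FreeGroup.of s) * (k * h⁻¹) * h⁻¹⁻¹) *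
        jmap (Lb n m) (star a) at h1
    have h2 : φ (FreeGroup.of s) * (k * h⁻¹) * h⁻¹⁻¹ = φ (FreeGroup.of s) * k := by group
    rw [h2] at h1
    have h3 := congrArg star h1
    rw [star_mul, star_mul, ← map_star, star_star] at h3
    exact h3.symm
  | mul l l' hl hl' =>
    intro h a ha k
    rw [th_mul, th_mul, ← mul_assoc, hl h a ha, mul_assoc, hl' h a ha, mul_assoc, mul_assoc]

/-- the entries are in `N` -/
theorem th_entry (l : FreeGroup S) : ∀ (k : G) (i j : Lb n m), X.th w n φ l k i j ∈ X.N := by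
  induction l using FreeGroup.induction_on with
  | C1 =>
    intro k i j
    rw [th_one]
    have h : (1 : CStarMatrix (Lb n m) (Lb n m) 𝒜) i j = if i = j then 1 else 0 :=
      CStarMatrix.one_apply
    rw [h]
    split_ifs
    · exact one_mem _
    · exact zero_mem _
  | of s =>
    intro k i j
    show X.th w n φ (FreeGroup.of s) k i j ∈ X.N
    rw [th_of]
    exact X.St_entry w n _ _ i j
  | inv_of s ih =>
    intro k i j
    show X.th w n φ (FreeGroup.of s)⁻¹ k i j ∈ X.N
    rw [th_inv]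
    exact star_mem (ih _ j i)
  | mul l l' hl hl' =>
    intro k i j
    rw [th_mul]
    have h : (X.th w n φ l k * X.th w n φ l' ((φ l)⁻¹ * k)) i j =
        ∑ r, X.th w n φ l k i r * X.th w n φ l' ((φ l)⁻¹ * k) r j := CStarMatrix.mul_apply
    rw [h]
    exact sum_mem fun r _ => mul_mem (hl _ _ _) (hl' _ _ _)

/-- the trace of `th l k * (a ⊗ 1)` -/
theorem mtr_th {τ : 𝒜 →ₗ[ℂ] ℂ} (hτ : ∀ g a, g ≠ 1 → a ∈ X.V g → τ a = 0)
    (l : FreeGroup S) (k g : G) (hg : g ≠ 1) (a : 𝒜) (ha : a ∈ X.V g) :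
    mtr (Lb n m) τ (X.th w n φ l k * jmap (Lb n m) a) = 0 := by
  rw [mtr_apply]
  refine mul_eq_zero_of_right _ (Finset.sum_eq_zero fun d _ => ?_)
  have h1 : (X.th w n φ l k * jmap (Lb n m) a) d d = X.th w n φ l k d d * a := by
    have h2 : (X.th w n φ l k * jmap (Lb n m) a) d d =
        ∑ r, X.th w n φ l k d r * jmap (Lb n m) a r d := CStarMatrix.mul_apply
    rw [h2, Finset.sum_eq_single d]
    · rw [jmap_apply, if_pos rfl]
    · intro r _ hr
      rw [jmap_apply, if_neg hr, mul_zero]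
    · intro h
      exact absurd (Finset.mem_univ _) h
  rw [h1]
  have h3 := X.V_mul 1 g _ _ (X.th_entry w n φ l k d d) ha
  rw [one_mul] at h3
  exact hτ g _ hg h3

end Setup

end Pool.Agent.QFJ
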